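import Pool.Agent.Helper78.SW.Defs

/-!
# Block SANDWICH: domain Markov property for the cluster weight
-/

open Finset RP4 DV

namespace SW

lemma inn_add_outp (S : Set V) (g : V → ℤ) (v : V) : inn S g v + outp S g v = g v := by
  unfold inn outp
  split_ifs <;> simp

private lemma Sp_inn {S : Set V} {f o : V → ℤ} (hf : ∀ v, v ∉ S → f v = 0) (ho : ∀ v ∈ S, o v = 0) :
    inn S (fun v => f v + o v) = f ∧ outp S (fun v => f v + o v) = o := by
  constructor
  · funext v
    unfold inn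
    by_cases hv : v ∈ S
    · rw [if_pos hv]
      show f v + o v = f v
      rw [ho v hv, add_zero]
    · rw [if_neg hv, hf v hv]
  · funext v
    unfold outp
    by_cases hv : v ∈ S
    · rw [if_pos hv, ho v hv]
    · rw [if_neg hv]
      show f v + o v = o v
      rw [hf v hv, zero_add]

private lemma Sp_off {S : Set V} (g : V → ℤ) (v : V) (hv : v ∉ S) : inn S g v = 0 := by
  unfold inn
  rw [if_neg hv]

private lemma Sp_on {S : Set V} (g : V → ℤ) (v : V) (hv : v ∈ S) : inn S g v = g v := by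
  unfold inn
  rw [if_pos hv]

private lemma Sp_ooff {S : Set V} (g : V → ℤ) (v : V) (hv : v ∉ S) : outp S g v = g v := by
  unfold outp
  rw [if_neg hv]

private lemma Sp_oon {S : Set V} (g : V → ℤ) (v : V) (hv : v ∈ S) : outp S g v = 0 := by
  unfold outp
  rw [if_pos hv]

open Classical in
private lemma Sp_avg {S : Set V} {P O : (V → ℤ) → Prop} {A : Finset (V → ℤ)}
    (h : ∀ g, g ∈ A ↔ P (inn S g) ∧ O (outp S g)) (hn : A.Nonempty) (F : (V → ℤ) → ℝ) :
    avg A (fun g => F (inn S g)) = avg (A.image (inn S)) F := by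
  set I := A.image (inn S) with hI
  set J := A.image (outp S) with hJ
  have hmem : ∀ q ∈ I ×ˢ J, (fun v => q.1 v + q.2 v) ∈ A ∧ inn S (fun v => q.1 v + q.2 v) = q.1 ∧
      outp S (fun v => q.1 v + q.2 v) = q.2 := by
    intro q hq
    obtain ⟨h1, h2⟩ := Finset.mem_product.1 hq
    obtain ⟨g1, hg1, e1⟩ := Finset.mem_image.1 h1
    obtain ⟨g2, hg2, e2⟩ := Finset.mem_image.1 h2
    have h3 := Sp_inn (S := S) (f := q.1) (o := q.2) (fun v hv => by rw [← e1]; exact Sp_off g1 v hv)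
      (fun v hv => by rw [← e2]; exact Sp_oon g2 v hv)
    refine ⟨(h _).2 ?_, h3.1, h3.2⟩
    rw [h3.1, h3.2, ← e1, ← e2]
    exact ⟨((h g1).1 hg1).1, ((h g2).1 hg2).2⟩
  have hin : ∀ g ∈ A, (inn S g, outp S g) ∈ I ×ˢ J := fun g hg =>
    Finset.mem_product.2 ⟨Finset.mem_image_of_mem _ hg, Finset.mem_image_of_mem _ hg⟩
  have hback : ∀ g ∈ A, (fun v => inn S g v + outp S g v) = g := fun g _ =>
    funext fun v => inn_add_outp S g v
  have hsum : ∑ g ∈ A, F (inn S g) = ∑ q ∈ I ×ˢ J, F q.1 :=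
    Finset.sum_nbij' (fun g => (inn S g, outp S g)) (fun q => fun v => q.1 v + q.2 v) hin
      (fun q hq => (hmem q hq).1) hback (fun q hq => Prod.ext (hmem q hq).2.1 (hmem q hq).2.2)
      (fun _ _ => rfl)
  have hcard : A.card = (I ×ˢ J).card :=
    Finset.card_nbij' (fun g => (inn S g, outp S g)) (fun q => fun v => q.1 v + q.2 v) hin
      (fun q hq => (hmem q hq).1) hback (fun q hq => Prod.ext (hmem q hq).2.1 (hmem q hq).2.2)
  have hJ0 : (J.card : ℝ) ≠ 0 := by
    have : 0 < J.card := (hn.image _).card_pos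
    positivity
  have hs2 : ∑ q ∈ I ×ˢ J, F q.1 = J.card * ∑ f ∈ I, F f := by
    rw [Finset.sum_product, Finset.mul_sum]
    refine Finset.sum_congr rfl fun f _ => ?_
    simp only [Finset.sum_const, nsmul_eq_mul]
  unfold avg
  rw [hsum, hs2, hcard, Finset.card_product, Nat.cast_mul, mul_comm (I.card : ℝ) (J.card : ℝ)]
  exact mul_div_mul_left _ _ hJ0

/-
Both families are products: with `I = image (inn S)` (the same set for both, by `P` and the nonemptiness) and `O_i = image (outp S) A_i`, the map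
`g ↦ (inn S g, outp S g)` is a bijection from `A_i` to `I ×ˢ O_i` (inverse: the sum).  So `∑ g ∈ A_i, F (inn S g) = |O_i| ∑ f ∈ I, F f` and `|A_i| = |I| |O_i|`.
-/
theorem avg_split {S : Set V} {P O1 O2 : (V → ℤ) → Prop} {A1 A2 : Finset (V → ℤ)}
    (h1 : ∀ g, g ∈ A1 ↔ P (inn S g) ∧ O1 (outp S g))
    (h2 : ∀ g, g ∈ A2 ↔ P (inn S g) ∧ O2 (outp S g)) (n1 : A1.Nonempty) (n2 : A2.Nonempty)
    (F : (V → ℤ) → ℝ) :
    avg A1 (fun g => F (inn S g)) = avg A2 (fun g => F (inn S g)) := by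
  classical
  have key : ∀ {O1 O2 : (V → ℤ) → Prop} {A1 A2 : Finset (V → ℤ)},
      (∀ g, g ∈ A1 ↔ P (inn S g) ∧ O1 (outp S g)) → (∀ g, g ∈ A2 ↔ P (inn S g) ∧ O2 (outp S g)) →
      A2.Nonempty → A1.image (inn S) ⊆ A2.image (inn S) := by
    intro O1 O2 A1 A2 h1 h2 n2 f hf
    obtain ⟨g1, hg1, rfl⟩ := Finset.mem_image.1 hf
    obtain ⟨g2, hg2⟩ := n2
    have h3 := Sp_inn (S := S) (f := inn S g1) (o := outp S g2) (Sp_off g1) (Sp_oon g2)
    refine Finset.mem_image.2 ⟨fun v => inn S g1 v + outp S g2 v, (h2 _).2 ?_, h3.1⟩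
    rw [h3.1, h3.2]
    exact ⟨((h1 g1).1 hg1).1, ((h2 g2).1 hg2).2⟩
  rw [Sp_avg h1 n1 F, Sp_avg h2 n2 F, Finset.Subset.antisymm (key h1 h2 n2) (key h2 h1 n1)]

/-
`g ∈ A ↔ IsHom D 0 g ∧ |g| = ξ on Z ∧ 0 ≤ g on B`.  Take `O f := (∀ v ∉ D, f v = 0) ∧ (parity on D \ S) ∧ (unit steps inside D \ S) ∧ (|f v| = ξ v on Z) ∧ (0 ≤ f on B)`.
A step between `u ∈ S` and `v ∉ S`: `g v = 0` because of `Sep.bd`, and `inn S g v = 0` too.
-/
theorem fam_split {D : Finset V} {B Z S : Set V} {ξ : V → ℤ} {A : Finset (V → ℤ)}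
    (hA : Fam D 0 B (Tb Z ξ) A) (hS : Sep D B Z ξ S) :
    ∃ O : (V → ℤ) → Prop, ∀ g, g ∈ A ↔ InH S (inn S g) ∧ O (outp S g) := by
  refine ⟨fun f => (∀ v, v ∉ D → f v = 0) ∧ (∀ v ∈ D, v ∉ S → Even (f v - RP4.par v)) ∧
    (∀ u ∈ D, u ∉ S → ∀ v ∈ D, v ∉ S → Adj u v → |f u - f v| = 1) ∧ (∀ v ∈ Z, |f v| = ξ v) ∧
    ∀ v ∈ B, 0 ≤ f v, fun g => ?_⟩
  rw [hA g]
  constructor
  · rintro ⟨hg, hT, hB⟩
    have hT' : ∀ v ∈ Z, |g v| = ξ v := hT
    refine ⟨⟨fun v hv => Sp_off g v hv, fun v hv => ?_, fun u hu v huv => ?_⟩, fun v hv => ?_,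
      fun v hv hvS => ?_, fun u hu huS v hv hvS huv => ?_, fun v hv => ?_, fun v hv => ?_⟩
    · rw [Sp_on g v hv]
      have h1 := hg.par v (hS.sub v hv)
      rwa [sub_zero] at h1
    · rw [Sp_on g u hu]
      have h1 := hg.step u (hS.sub u hu) v (hS.nb u hu v huv) huv
      by_cases hv : v ∈ S
      · rw [Sp_on g v hv]
        exact h1
      · rw [Sp_off g v hv]
        obtain ⟨h2, h3⟩ := hS.bd u hu v huv hv
        have h4 : g v = 0 := abs_eq_zero.1 ((hT' v h2).trans h3)
        rwa [h4] at h1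
    · by_cases hvS : v ∈ S
      · exact Sp_oon g v hvS
      · rw [Sp_ooff g v hvS]
        exact hg.off v hv
    · rw [Sp_ooff g v hvS]
      have h1 := hg.par v hv
      rwa [sub_zero] at h1
    · rw [Sp_ooff g u huS, Sp_ooff g v hvS]
      exact hg.step u hu v hv huv
    · rw [Sp_ooff g v (fun h => hS.nZ v h hv)]
      exact hT' v hv
    · rw [Sp_ooff g v (fun h => hS.nB v h hv)]
      exact hB v hv
  · rintro ⟨hI, h1, h2, h3, h4, h5⟩
    have hZ : ∀ v ∈ Z, |g v| = ξ v := fun v hv => by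
      have := h4 v hv
      rwa [Sp_ooff g v (fun h => hS.nZ v h hv)] at this
    have hmix : ∀ u ∈ S, ∀ v, v ∉ S → Adj u v → |g u - g v| = 1 := by
      intro u hu v hv huv
      obtain ⟨h6, h7⟩ := hS.bd u hu v huv hv
      have h8 : g v = 0 := abs_eq_zero.1 ((hZ v h6).trans h7)
      have h9 := hI.step u hu v huv
      rw [Sp_on g u hu, Sp_off g v hv] at h9
      rw [h8]
      exact h9
    refine ⟨⟨fun v hv => ?_, fun v hv => ?_, fun u hu v hv huv => ?_⟩, hZ, fun v hv => ?_⟩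
    · have := h1 v hv
      rwa [Sp_ooff g v (fun h => hv (hS.sub v h))] at this
    · rw [sub_zero]
      by_cases hvS : v ∈ S
      · have := hI.par v hvS
        rwa [Sp_on g v hvS] at this
      · have := h2 v hv hvS
        rwa [Sp_ooff g v hvS] at this
    · by_cases huS : u ∈ S
      · by_cases hvS : v ∈ S
        · have := hI.step u huS v huv
          rwa [Sp_on g u huS, Sp_on g v hvS] at this
        · exact hmix u huS v hvS huv
      · by_cases hvS : v ∈ S
        · have hvu : Adj v u := by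
            unfold Adj at huv ⊢
            rw [abs_sub_comm v.1, abs_sub_comm v.2]
            exact huv
          rw [abs_sub_comm]
          exact hmix v hvS u huS hvu
        · have := h3 u hu huS v hv hvS huv
          rwa [Sp_ooff g u huS, Sp_ooff g v hvS] at this
    · have := h5 v hv
      rwa [Sp_ooff g v (fun h => hS.nB v h hv)] at this

/-
If `g` vanishes at the outer neighbours of `S`, a path of nonzero sites from a point of `S` stays in `S` (see the private lemmas of Helper63/RP4/M2.lean), and the nonzero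
sites of `inn S g` are those of `g` in `S`.  If some `p i` is not in `S` both sides vanish.
-/
theorem clm_inn {n : ℕ} {p : Fin n → V} {S : Set V} {g : V → ℤ}
    (hz : ∀ u ∈ S, ∀ v, Adj u v → v ∉ S → g v = 0) (hp : ∀ i, p i ∈ S ∨ g (p i) = 0) :
    clm p (inn S g) = clm p g := by
  classical
  by_cases hall : ∀ i, p i ∈ S
  · have hv : ∀ i, inn S g (p i) = g (p i) := fun i => Sp_on g _ (hall i)
    have hconn : ∀ i j, Conn (inn S g) (p i) (p j) ↔ Conn g (p i) (p j) := by
      intro i j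
      constructor
      · rintro ⟨h1, h2⟩
        refine ⟨by rwa [hv i] at h1, ?_⟩
        have key : ∀ y, Relation.ReflTransGen (fun u v => Adj u v ∧ inn S g v ≠ 0) (p i) y →
            Relation.ReflTransGen (fun u v => Adj u v ∧ g v ≠ 0) (p i) y := by
          intro y hy
          induction hy with
          | refl => exact Relation.ReflTransGen.refl
          | @tail u v _ huv ih =>
            refine ih.tail ⟨huv.1, fun h0 => huv.2 ?_⟩
            by_cases hvS : v ∈ S
            · rw [Sp_on g v hvS, h0]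
            · exact Sp_off g v hvS
        exact key _ h2
      · rintro ⟨h1, h2⟩
        refine ⟨by rwa [hv i], ?_⟩
        have key : ∀ y, Relation.ReflTransGen (fun u v => Adj u v ∧ g v ≠ 0) (p i) y →
            y ∈ S ∧ Relation.ReflTransGen (fun u v => Adj u v ∧ inn S g v ≠ 0) (p i) y := by
          intro y hy
          induction hy with
          | refl => exact ⟨hall i, Relation.ReflTransGen.refl⟩
          | @tail u v _ huv ih =>
            have hvS : v ∈ S := by
              by_contra hvS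
              exact huv.2 (hz u ih.1 v huv.1 hvS)
            exact ⟨hvS, ih.2.tail ⟨huv.1, by rw [Sp_on g v hvS]; exact huv.2⟩⟩
        exact (key _ h2).2
    unfold clm
    simp only [hv, hconn]
  · push Not at hall
    obtain ⟨i, hi⟩ := hall
    have h0 : g (p i) = 0 := (hp i).resolve_left hi
    unfold clm
    rw [if_neg (fun h => h.1 i (Sp_off g _ hi)), if_neg (fun h => h.1 i h0)]

/-- domain Markov property: the average of the cluster weight is the same in two families which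
separate `S` -/
theorem markov_clm {n : ℕ} {p : Fin n → V} {S : Set V} {D1 D2 : Finset V} {B1 B2 Z1 Z2 : Set V}
    {ξ1 ξ2 : V → ℤ} {A1 A2 : Finset (V → ℤ)} (hA1 : Fam D1 0 B1 (Tb Z1 ξ1) A1)
    (hA2 : Fam D2 0 B2 (Tb Z2 ξ2) A2) (s1 : Sep D1 B1 Z1 ξ1 S) (s2 : Sep D2 B2 Z2 ξ2 S)
    (n1 : A1.Nonempty) (n2 : A2.Nonempty)
    (hp : ∀ i, p i ∈ S ∨ (∀ g ∈ A1, g (p i) = 0) ∧ ∀ g ∈ A2, g (p i) = 0) :
    avg A1 (clm p) = avg A2 (clm p) := by
  obtain ⟨O1, e1⟩ := fam_split hA1 s1
  obtain ⟨O2, e2⟩ := fam_split hA2 s2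
  have key : ∀ {D : Finset V} {B Z : Set V} {ξ : V → ℤ} {A : Finset (V → ℤ)}, Fam D 0 B (Tb Z ξ) A →
      Sep D B Z ξ S → (∀ i, p i ∈ S ∨ ∀ g ∈ A, g (p i) = 0) →
      avg A (clm p) = avg A (fun g => clm p (inn S g)) := by
    intro D B Z ξ A hA hS hpA
    unfold avg
    congr 1
    refine Finset.sum_congr rfl fun g hg => ?_
    refine (clm_inn (fun u hu v huv hv => ?_) fun i => ?_).symm
    · obtain ⟨h1, h2⟩ := hS.bd u hu v huv hv
      have h3 : |g v| = ξ v := ((hA g).1 hg).2.1 v h1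
      exact abs_eq_zero.1 (h3.trans h2)
    · exact (hpA i).imp id fun h => h g hg
  rw [key hA1 s1 fun i => (hp i).imp id fun h => h.1, key hA2 s2 fun i => (hp i).imp id fun h => h.2]
  exact avg_split e1 e2 n1 n2 (clm p)

end SW
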