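import Pool.Agent.Helper78.SW.Pc
import Pool.Agent.Helper78.SW.Sp

/-!
# Block SANDWICH: lower bound (2602 (8b)), finite volume
-/

open Finset RP4 DV

namespace SW

lemma Lo_core_mem {D : Finset V} {v : V} : v ∈ core D ↔ v ∈ D ∧ v ∉ bdry D := by
  unfold core
  rw [Finset.mem_sdiff]

/-- neighbours of the core are in the domain -/
lemma Lo_core_nb {D : Finset V} {u v : V} (hu : u ∈ core D) (huv : Adj u v) : v ∈ D := by
  rw [Lo_core_mem] at hu
  by_contra hv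
  exact hu.2 (mem_bdry.2 ⟨hu.1, v, adj_symm huv, hv⟩)

lemma Lo_core_not_bdry {D D' : Finset V} (hDD' : D ⊆ D') {u : V} (hu : u ∈ core D) :
    u ∉ bdry D' := by
  intro h
  obtain ⟨_, v, huv, hv⟩ := mem_bdry.1 h
  exact hv (hDD' (Lo_core_nb hu (adj_symm huv)))

lemma Lo_flat_le {D' : Finset V} {g : V → ℤ} (hg : IsHom D' 0 g) (v : V) :
    flat D' 0 v ≤ |g v| := by
  classical
  by_cases hv : v ∈ D'
  · have h1 := hg.par v hv
    simp only [flat, if_pos hv]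
    split_ifs with h
    · exact abs_nonneg _
    · have h2 : g v ≠ 0 := by
        intro h0
        apply h
        rw [h0] at h1
        rw [Int.even_iff] at h1 ⊢
        omega
      have h3 : 0 < |g v| := abs_pos.2 h2
      omega
  · simp only [flat, if_neg hv]
    exact abs_nonneg _

lemma Lo_flat_nonneg (D' : Finset V) (v : V) : 0 ≤ flat D' 0 v := by
  classical
  unfold flat
  split_ifs <;> norm_num

lemma Lo_flat_even {D' : Finset V} {v : V} (h : Even (par v - 0)) : flat D' 0 v = 0 := by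
  classical
  unfold flat
  split_ifs <;> rfl

/-- the smaller family of the comparison -/
lemma Lo_small {D D' : Finset V} (hDD' : D ⊆ D') :
    ∃ A'' : Finset (V → ℤ), Fam D' 0 (bdry D' : Set V)
      (Tb {v | v ∉ core D} (flat D' 0)) A'' := by
  classical
  have hfin : {g : V → ℤ | IsHom D' 0 g ∧ absf g ∈ Tb {v | v ∉ core D} (flat D' 0) ∧
      ∀ v ∈ (bdry D' : Set V), 0 ≤ g v}.Finite := by
    apply (A02_fin D' (D'.card + 1)).subset
    rintro g ⟨hg, hT, -⟩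
    refine ⟨hg.off, fun v hv => ?_⟩
    obtain ⟨b, hb, hbv⟩ := hg.bound_bdry hv
    have h1 : |g b| = flat D' 0 b := hT b (fun hc => Lo_core_not_bdry hDD' hc hb)
    have h2 : flat D' 0 b ≤ 1 := by
      unfold flat
      split_ifs <;> norm_num
    have h3 := abs_add_le (g v - g b) (g b)
    rw [sub_add_cancel] at h3
    linarith
  refine ⟨hfin.toFinset, fun g => ?_⟩
  rw [Set.Finite.mem_toFinset]
  rfl

/-- the comparison on one fibre -/
lemma Lo_fibre {n : ℕ} {p : Fin n → V} {D D' : Finset V} (hD : BdryPar D 0) (hDD' : D ⊆ D')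
    (hpD : ∀ i, p i ∈ D) {ξ : V → ℤ} {A : Finset (V → ℤ)}
    (hA : Fam D' 0 (bdry D' : Set V) (Tb {v | v ∉ core D} ξ) A) (hne : A.Nonempty) :
    avg (Om D) (clm p) ≤ avg A (clm p) := by
  obtain ⟨A'', hA''⟩ := Lo_small hDD'
  have hn'' : A''.Nonempty := by
    refine ⟨flat D' 0, (hA'' _).2 ⟨flat_isHom D' 0, fun v _ => ?_, fun v _ =>
      Lo_flat_nonneg D' v⟩⟩
    exact abs_of_nonneg (Lo_flat_nonneg D' v)
  have hξ : ∀ v ∉ core D, flat D' 0 v ≤ ξ v := by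
    intro v hv
    obtain ⟨g0, hg0⟩ := hne
    obtain ⟨h1, h2, -⟩ := (hA g0).1 hg0
    have h3 : |g0 v| = ξ v := h2 v hv
    rw [← h3]
    exact Lo_flat_le h1 v
  have hmono : avg A'' (clm p) ≤ avg A (clm p) := by
    have hF := clm_incF p
    refine gfkg hA'' hA ?_ ?_ le_rfl (fun _ _ _ _ v hv hv' => absurd hv hv') hn'' hne _
      hF.nonneg hF.abs hF.mono
    · intro ξ' h1 ξ1 h2 _ _ _ _ v hv
      rw [Pi.inf_apply, h1 v hv, h2 v hv, min_eq_left (hξ v hv)]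
    · intro ξ' h1 ξ1 h2 _ _ _ _ v hv
      rw [Pi.sup_apply, h1 v hv, h2 v hv, max_eq_right (hξ v hv)]
  refine le_trans (le_of_eq ?_) hmono
  have hbd : ∀ v ∈ bdry D, flat D' 0 v = 0 := fun v hv => Lo_flat_even (hD v hv)
  refine (markov_clm (S := {v | v ∈ core D}) (fam_Zs (Subset.refl (bdry D))) hA'' ?_ ?_
    (Om_nonempty hD) hn'' ?_)
  · refine ⟨fun u hu => (Lo_core_mem.1 hu).1, fun u hu v huv => Lo_core_nb hu huv,
      fun u hu hu' => (Lo_core_mem.1 hu).2 hu', fun u _ hu' => hu', fun u hu v huv hv => ?_⟩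
    refine ⟨?_, rfl⟩
    have h1 := Lo_core_nb hu huv
    by_contra h2
    exact hv (Lo_core_mem.2 ⟨h1, h2⟩)
  · refine ⟨fun u hu => hDD' (Lo_core_mem.1 hu).1, fun u hu v huv => hDD' (Lo_core_nb hu huv),
      fun u hu hu' => hu' hu, fun u hu hu' => Lo_core_not_bdry hDD' hu hu',
      fun u hu v huv hv => ?_⟩
    refine ⟨hv, hbd v ?_⟩
    have h1 := Lo_core_nb hu huv
    by_contra h2
    exact hv (Lo_core_mem.2 ⟨h1, h2⟩)
  · intro i
    by_cases hi : p i ∈ core D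
    · exact Or.inl hi
    · right
      have hb : p i ∈ bdry D := by
        by_contra h2
        exact hi (Lo_core_mem.2 ⟨hpD i, h2⟩)
      refine ⟨fun g hg => (mem_Om.1 hg).2 _ hb, fun g hg => ?_⟩
      have h1 : |g (p i)| = flat D' 0 (p i) := ((hA'' g).1 hg).2.1 _ hi
      rw [hbd _ hb] at h1
      exact abs_eq_zero.1 h1

/-- the bound for nonnegative boundary values -/
lemma Lo_clm_nonneg {n : ℕ} {p : Fin n → V} {D D' : Finset V} (hD : BdryPar D 0) (hDD' : D ⊆ D')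
    {b : ℤ} (hb : 0 ≤ b) {A : Finset (V → ℤ)}
    (hA : ∀ g, g ∈ A ↔ IsHom D' 0 g ∧ ∀ v ∈ bdry D', g v = b)
    {E : (V → ℤ) → Prop} (hE : ∀ g g' : V → ℤ, (∀ v ∉ core D, |g v| = |g' v|) → E g → E g')
    (hpD : ∀ i, p i ∈ D) {A' : Finset (V → ℤ)} (hA' : ∀ g, g ∈ A' ↔ g ∈ A ∧ E g) :
    avg (Om D) (clm p) * A'.card ≤ ∑ g ∈ A', clm p g := by
  classical
  obtain ⟨o, ho⟩ : ∃ o : (V → ℤ) → (V → ℤ), ∀ g v, o g v = if v ∈ core D then 0 else |g v| :=
    ⟨fun g v => if v ∈ core D then 0 else |g v|, fun g v => rfl⟩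
  have hfib : ∀ g0 ∈ A', ∀ g, g ∈ A'.filter (fun g => o g = o g0) ↔
      IsHom D' 0 g ∧ absf g ∈ Tb {v | v ∉ core D} (absf g0) ∧
        ∀ v ∈ (bdry D' : Set V), 0 ≤ g v := by
    intro g0 hg0 g
    have hog : o g = o g0 ↔ ∀ v ∉ core D, |g v| = |g0 v| := by
      constructor
      · intro h v hv
        have h1 := congrFun h v
        rwa [ho, ho, if_neg hv, if_neg hv] at h1
      · intro h
        funext v
        rw [ho, ho]
        split_ifs with hv
        · rfl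
        · exact h v hv
    rw [Finset.mem_filter, hA', hog]
    have hg0' := (hA' g0).1 hg0
    constructor
    · rintro ⟨⟨h1, h2⟩, h3⟩
      refine ⟨((hA g).1 h1).1, h3, fun v hv => ?_⟩
      rw [((hA g).1 h1).2 v hv]
      exact hb
    · rintro ⟨h1, h2, h3⟩
      have h4 : ∀ v ∉ core D, |g v| = |g0 v| := h2
      refine ⟨⟨(hA g).2 ⟨h1, fun v hv => ?_⟩, hE g0 g (fun v hv => (h4 v hv).symm) hg0'.2⟩, h4⟩
      have h5 := h4 v (fun hc => Lo_core_not_bdry hDD' hc hv)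
      rw [((hA g0).1 hg0'.1).2 v hv, abs_of_nonneg (h3 v hv), abs_of_nonneg hb] at h5
      exact h5
  have hmaps : ∀ g ∈ A', o g ∈ A'.image o := fun g hg => Finset.mem_image_of_mem o hg
  rw [← Finset.sum_fiberwise_of_maps_to hmaps, Finset.card_eq_sum_card_fiberwise hmaps]
  push_cast
  rw [Finset.mul_sum]
  refine Finset.sum_le_sum fun c hc => ?_
  obtain ⟨g0, hg0, rfl⟩ := Finset.mem_image.1 hc
  have hne : (A'.filter fun g => o g = o g0).Nonempty :=
    ⟨g0, Finset.mem_filter.2 ⟨hg0, rfl⟩⟩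
  have h1 := Lo_fibre hD hDD' hpD (hfib g0 hg0) hne
  have h2 : (0 : ℝ) < ((A'.filter fun g => o g = o g0).card : ℝ) := by
    exact_mod_cast hne.card_pos
  unfold avg at h1 ⊢
  exact (le_div_iff₀ h2).1 h1

/-
First `0 ≤ b` (for `b < 0` apply it to the image of `A` under `g ↦ -g`: `clm` and `E` depend on the absolute value only).
Split `A'` into the fibres `{g ∈ A : |g| = ξ off core D}` (`E` is constant on each fibre).  A nonempty fibre is
`Fam D' 0 (bdry D') (Tb {v | v ∉ core D} ξ)` (choose `ξ = absf g0`).  Compare by `DV.gfkg` with `T' = Tb {v | v ∉ core D} fl`, `fl v = if par v is even or v ∉ D' then 0 else 1`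
(`RP4.flat D' 0`), same sign set: `avg A'' clm ≤ avg fibre clm`.  By `markov_clm` with `S = core D` the first average is the average over `Om D`
(`fam_Zs`, `Z = bdry D`, `bdry D` is even, so `fl = 0` there).  The first family contains `flat D' 0`, so it is nonempty.
-/
theorem lo_clm {n : ℕ} {p : Fin n → V} {D D' : Finset V} (hD : BdryPar D 0) (hDD' : D ⊆ D')
    {b : ℤ} {A : Finset (V → ℤ)} (hA : ∀ g, g ∈ A ↔ IsHom D' 0 g ∧ ∀ v ∈ bdry D', g v = b)
    {E : (V → ℤ) → Prop} (hE : ∀ g g' : V → ℤ, (∀ v ∉ core D, |g v| = |g' v|) → E g → E g')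
    (hpD : ∀ i, p i ∈ D) {A' : Finset (V → ℤ)} (hA' : ∀ g, g ∈ A' ↔ g ∈ A ∧ E g) :
    avg (Om D) (clm p) * A'.card ≤ ∑ g ∈ A', clm p g := by
  classical
  rcases le_total 0 b with hb | hb
  · exact Lo_clm_nonneg hD hDD' hb hA hE hpD hA'
  · have hinj : Function.Injective (fun g : V → ℤ => -g) := neg_injective
    have hAn : ∀ g, g ∈ A.image (fun g : V → ℤ => -g) ↔
        IsHom D' 0 g ∧ ∀ v ∈ bdry D', g v = -b := by
      intro g
      rw [Finset.mem_image]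
      constructor
      · rintro ⟨g1, hg1, rfl⟩
        obtain ⟨h1, h2⟩ := (hA g1).1 hg1
        refine ⟨h1.neg, fun v hv => ?_⟩
        rw [Pi.neg_apply, h2 v hv]
      · rintro ⟨h1, h2⟩
        refine ⟨-g, (hA _).2 ⟨h1.neg, fun v hv => ?_⟩, neg_neg g⟩
        rw [Pi.neg_apply, h2 v hv, neg_neg]
    have hEn : ∀ g, E (-g) ↔ E g := fun g =>
      ⟨hE _ _ fun v _ => by rw [Pi.neg_apply, abs_neg],
        hE _ _ fun v _ => by rw [Pi.neg_apply, abs_neg]⟩
    have hAn' : ∀ g, g ∈ A'.image (fun g : V → ℤ => -g) ↔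
        g ∈ A.image (fun g : V → ℤ => -g) ∧ E g := by
      intro g
      rw [Finset.mem_image, Finset.mem_image]
      constructor
      · rintro ⟨g1, hg1, rfl⟩
        obtain ⟨h1, h2⟩ := (hA' g1).1 hg1
        exact ⟨⟨g1, h1, rfl⟩, (hEn g1).2 h2⟩
      · rintro ⟨⟨g1, hg1, rfl⟩, h2⟩
        exact ⟨g1, (hA' g1).2 ⟨hg1, (hEn g1).1 h2⟩, rfl⟩
    have h1 := Lo_clm_nonneg hD hDD' (neg_nonneg.2 hb) hAn hE hpD hAn'
    rw [Finset.card_image_of_injective _ hinj, Finset.sum_image (fun _ _ _ _ h => hinj h)] at h1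
    refine h1.trans (le_of_eq (Finset.sum_congr rfl fun g _ => ?_))
    have h2 := clm_abs p g
    have h3 := clm_abs p (-g)
    have h4 : (fun v => |(-g) v|) = fun v => |g v| := by
      funext v
      rw [Pi.neg_apply, abs_neg]
    rw [← h2, ← h3, h4]

/-
`lo_clm`, `sum_prod_filter`, `prod_clm` (for `Om D`).
-/
theorem lo_fin {n : ℕ} {p : Fin n → V} {D D' : Finset V} (hD : BdryPar D 0) (hDD' : D ⊆ D')
    {b : ℤ} {A : Finset (V → ℤ)} (hA : ∀ g, g ∈ A ↔ IsHom D' 0 g ∧ ∀ v ∈ bdry D', g v = b)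
    {E : (V → ℤ) → Prop} (hE : ∀ g g' : V → ℤ, (∀ v ∉ core D, |g v| = |g' v|) → E g → E g')
    (hblk : ∀ g ∈ A, E g → ∀ i, ∀ v ∈ bdry D', ¬ Conn g (p i) v)
    (hpD : ∀ i, p i ∈ D) {A' : Finset (V → ℤ)} (hA' : ∀ g, g ∈ A' ↔ g ∈ A ∧ E g) :
    avg (Om D) (fun h => ∏ i, (h (p i) : ℝ)) * A'.card ≤ ∑ g ∈ A', ∏ i, (g (p i) : ℝ) := by
  have hE' : ∀ g, E (absf g) ↔ E g := fun g =>
    ⟨hE _ _ fun v _ => abs_abs (g v), hE _ _ fun v _ => (abs_abs (g v)).symm⟩
  rw [sum_prod_filter hA hE' hblk hA']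
  have h1 : avg (Om D) (fun h => ∏ i, (h (p i) : ℝ)) = avg (Om D) (clm p) := by
    unfold avg
    congr 1
    exact prod_clm D 0 (bdry D) (Subset.refl _) p
  rw [h1]
  exact lo_clm hD hDD' hA hE hpD hA'

/-- (8b) for an even number of marked points: no blocking hypothesis -/
theorem lo_even {n : ℕ} (hn : Even n) {p : Fin n → V} {D D' : Finset V} (hD : BdryPar D 0)
    (hDD' : D ⊆ D') {b : ℤ} {A : Finset (V → ℤ)}
    (hA : ∀ g, g ∈ A ↔ IsHom D' 0 g ∧ ∀ v ∈ bdry D', g v = b)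
    {E : (V → ℤ) → Prop} (hE : ∀ g g' : V → ℤ, (∀ v ∉ core D, |g v| = |g' v|) → E g → E g')
    (hpD : ∀ i, p i ∈ D) {A' : Finset (V → ℤ)} (hA' : ∀ g, g ∈ A' ↔ g ∈ A ∧ E g) :
    avg (Om D) (fun h => ∏ i, (h (p i) : ℝ)) * A'.card ≤ ∑ g ∈ A', ∏ i, (g (p i) : ℝ) := by
  have h1 : avg (Om D) (fun h => ∏ i, (h (p i) : ℝ)) = avg (Om D) (clm p) := by
    unfold avg
    exact congrArg (· / _) (prod_clm D 0 (bdry D) (Finset.Subset.refl _) p)
  have habs : ∀ g, E (absf g) ↔ E g := fun g =>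
    ⟨hE _ _ fun v _ => abs_abs (g v), hE _ _ fun v _ => (abs_abs (g v)).symm⟩
  rw [h1]
  exact (lo_clm hD hDD' hA hE hpD hA').trans (sum_clm_filter_le hn hA habs hA')

end SW
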