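import Pool.Agent.Helper78.SW.Up
import Pool.Agent.Helper78.SW.Lo
import Pool.Agent.Helper33.DV.Pd

/-!
# Block SANDWICH: linear observables, one level
-/

open Finset RP4 DV

namespace SW

open Classical in
/-- the function on `D` (zero off `D`) -/
noncomputable def trc (D : Finset V) (g : V → ℤ) : V → ℤ := fun v => if v ∈ D then g v else 0

lemma trc_in {D : Finset V} {g : V → ℤ} {v : V} (hv : v ∈ D) : trc D g v = g v := by
  unfold trc
  rw [if_pos hv]

lemma trc_out {D : Finset V} {g : V → ℤ} {v : V} (hv : v ∉ D) : trc D g v = 0 := by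
  unfold trc
  rw [if_neg hv]

/-- the height functions with boundary value `- 2 k` -/
noncomputable def Lk (D : Finset V) (k : ℤ) : Finset (V → ℤ) := by
  classical exact (Om D).image (fun h => trc D (lev k h))

lemma trc_inj {D : Finset V} (k : ℤ) : Set.InjOn (fun h => trc D (lev k h)) (Om D : Set (V → ℤ)) := by
  intro h hh h' hh' he
  have h1 := (mem_Om.1 (Finset.mem_coe.1 hh)).1
  have h2 := (mem_Om.1 (Finset.mem_coe.1 hh')).1
  funext v
  by_cases hv : v ∈ D
  · have h3 := congrFun he v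
    simp only [trc_in hv, lev] at h3
    omega
  · rw [h1.off v hv, h2.off v hv]

lemma mem_Lk {D : Finset V} {k : ℤ} {g : V → ℤ} :
    g ∈ Lk D k ↔ IsHom D 0 g ∧ ∀ v ∈ bdry D, g v = -(2 * k) := by
  classical
  unfold Lk
  rw [Finset.mem_image]
  constructor
  · rintro ⟨h, hh, rfl⟩
    obtain ⟨h1, h2⟩ := mem_Om.1 hh
    refine ⟨⟨fun v hv => trc_out hv, fun v hv => ?_, fun u hu v hv huv => ?_⟩, fun v hv => ?_⟩
    · rw [trc_in hv]
      have h3 := h1.par v hv
      have h4 : lev k h v - par v - 0 = (h v - par v - 0) - 2 * k := by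
        unfold lev
        ring
      rw [h4]
      exact h3.sub (even_two_mul k)
    · rw [trc_in hu, trc_in hv]
      have h3 := h1.step u hu v hv huv
      have h4 : lev k h u - lev k h v = h u - h v := by
        unfold lev
        ring
      rw [h4, h3]
    · rw [trc_in (bdry_subset D hv)]
      have h3 := h2 v hv
      unfold lev
      rw [h3]
      ring
  · rintro ⟨h1, h2⟩
    refine ⟨trc D (lev (-k) g), mem_Om.2 ⟨⟨fun v hv => trc_out hv, fun v hv => ?_,
      fun u hu v hv huv => ?_⟩, fun v hv => ?_⟩, ?_⟩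
    · rw [trc_in hv]
      have h3 := h1.par v hv
      have h4 : lev (-k) g v - par v - 0 = (g v - par v - 0) + 2 * k := by
        unfold lev
        ring
      rw [h4]
      exact h3.add (even_two_mul k)
    · rw [trc_in hu, trc_in hv]
      have h3 := h1.step u hu v hv huv
      have h4 : lev (-k) g u - lev (-k) g v = g u - g v := by
        unfold lev
        ring
      rw [h4, h3]
    · rw [trc_in (bdry_subset D hv)]
      have h3 := h2 v hv
      unfold lev
      rw [h3]
      ring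
    · funext v
      by_cases hv : v ∈ D
      · rw [trc_in hv]
        unfold lev
        rw [trc_in hv]
        ring
      · rw [trc_out hv, h1.off v hv]

lemma sum_Lk (D : Finset V) (k : ℤ) (G : (V → ℤ) → ℝ) :
    ∑ g ∈ Lk D k, G g = ∑ h ∈ Om D, G (trc D (lev k h)) := by
  classical
  unfold Lk
  exact Finset.sum_image (trc_inj k)

/-- a linear observable -/
noncomputable def lo (s : Finset V) (m : V → ℝ) (g : V → ℤ) : ℝ := ∑ x ∈ s, m x * (g x : ℝ)

lemma prod_lo {n : ℕ} (s : Finset V) (m : Fin n → V → ℝ) (g : V → ℤ) :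
    ∏ i, lo s (m i) g =
      ∑ p ∈ Fintype.piFinset (fun _ : Fin n => s), (∏ i, m i (p i)) * ∏ i, (g (p i) : ℝ) := by
  unfold lo
  rw [Finset.prod_univ_sum]
  refine Finset.sum_congr rfl fun p _ => ?_
  rw [Finset.prod_mul_distrib]

lemma avg_prod_lo {n : ℕ} (D s : Finset V) (m : Fin n → V → ℝ) :
    avg (Om D) (fun h => ∏ i, lo s (m i) h) =
      ∑ p ∈ Fintype.piFinset (fun _ : Fin n => s),
        (∏ i, m i (p i)) * avg (Om D) (fun h => ∏ i, (h (p i) : ℝ)) := by
  unfold avg
  simp only [prod_lo]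
  rw [Finset.sum_comm, Finset.sum_div]
  refine Finset.sum_congr rfl fun p _ => ?_
  rw [← Finset.mul_sum, mul_div_assoc]

section

variable {n : ℕ} {D D' s : Finset V} {m : Fin n → V → ℝ} {E : (V → ℤ) → Prop}

open Classical in
private lemma Lv_rw (hs : s ⊆ D') (hloc : ∀ g g' : V → ℤ, (∀ x ∈ D', g x = g' x) → (E g ↔ E g'))
    (k : ℤ) : ∑ h ∈ Om D', (if E (lev k h) then ∏ i, lo s (m i) (lev k h) else 0) =
      ∑ p ∈ Fintype.piFinset (fun _ : Fin n => s), (∏ i, m i (p i)) *
        ∑ g ∈ (Lk D' k).filter E, ∏ i, (g (p i) : ℝ) := by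
  have h1 : ∀ h : V → ℤ, (if E (lev k h) then ∏ i, lo s (m i) (lev k h) else 0) =
      (if E (trc D' (lev k h)) then ∏ i, lo s (m i) (trc D' (lev k h)) else 0) := by
    intro h
    have h2 : E (lev k h) ↔ E (trc D' (lev k h)) := hloc _ _ fun x hx => (trc_in hx).symm
    have h3 : ∀ i, lo s (m i) (lev k h) = lo s (m i) (trc D' (lev k h)) := by
      intro i
      unfold lo
      exact Finset.sum_congr rfl fun x hx => by rw [trc_in (hs hx)]
    simp only [h2, h3]
  rw [Finset.sum_congr rfl fun h _ => h1 h,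
    ← sum_Lk D' k (fun g => if E g then ∏ i, lo s (m i) g else 0), ← Finset.sum_filter]
  simp only [prod_lo]
  rw [Finset.sum_comm]
  refine Finset.sum_congr rfl fun p _ => ?_
  rw [Finset.mul_sum]

open Classical in
private lemma Lv_card (hloc : ∀ g g' : V → ℤ, (∀ x ∈ D', g x = g' x) → (E g ↔ E g')) (k : ℤ) :
    ∑ h ∈ Om D', (if E (lev k h) then (1 : ℝ) else 0) = ((Lk D' k).filter E).card := by
  have h1 : ∀ h : V → ℤ, (if E (lev k h) then (1 : ℝ) else 0) =
      (if E (trc D' (lev k h)) then (1 : ℝ) else 0) := by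
    intro h
    have h2 : E (lev k h) ↔ E (trc D' (lev k h)) := hloc _ _ fun x hx => (trc_in hx).symm
    simp only [h2]
  rw [Finset.sum_congr rfl fun h _ => h1 h, ← sum_Lk D' k (fun g => if E g then (1 : ℝ) else 0)]
  simp

open Classical in
/-- (8a), one level: `E` is a decreasing event of `|g|` in `D'` on which no nonzero path joins the
supports of the weights to the complement of the interior of `D` -/
theorem lev_upper (hD : BdryPar D 0) (hDD' : D ⊆ D') (hs : s ⊆ D') (hm : ∀ i x, 0 ≤ m i x)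
    (hE : Dec E) (hloc : ∀ g g' : V → ℤ, (∀ x ∈ D', g x = g' x) → (E g ↔ E g'))
    (hblk : ∀ g, E g → ∀ i, ∀ x ∈ s, m i x ≠ 0 → ∀ v ∉ core D, ¬ Conn g x v) (k : ℤ) :
    ∑ h ∈ Om D', (if E (lev k h) then ∏ i, lo s (m i) (lev k h) else 0) ≤
      avg (Om D) (fun h => ∏ i, lo s (m i) h) *
        ∑ h ∈ Om D', (if E (lev k h) then (1 : ℝ) else 0) := by
  rw [Lv_rw hs hloc, Lv_card hloc, avg_prod_lo, Finset.sum_mul]
  refine Finset.sum_le_sum fun p hp => ?_
  rw [mul_assoc]
  by_cases hz : ∀ i, m i (p i) ≠ 0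
  · refine mul_le_mul_of_nonneg_left ?_ (Finset.prod_nonneg fun i _ => hm i _)
    refine up_fin hD hDD' (A := Lk D' k) (fun g => mem_Lk) hE (fun g _ hg i v hv => ?_)
      (fun g => Finset.mem_filter)
    exact hblk g hg i (p i) (Fintype.mem_piFinset.1 hp i) (hz i) v hv
  · push Not at hz
    obtain ⟨i, hi⟩ := hz
    rw [Finset.prod_eq_zero (Finset.mem_univ i) hi, zero_mul, zero_mul]

open Classical in
/-- (8b), one level: `E` depends on `|g|` off the interior of `D` only, the supports of the weights are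
in `D`, and on `E` no nonzero path joins them to the boundary of `D'` -/
theorem lev_lower (hD : BdryPar D 0) (hDD' : D ⊆ D') (hs : s ⊆ D') (hm : ∀ i x, 0 ≤ m i x)
    (hE : ∀ g g' : V → ℤ, (∀ v ∉ core D, |g v| = |g' v|) → E g → E g')
    (hloc : ∀ g g' : V → ℤ, (∀ x ∈ D', g x = g' x) → (E g ↔ E g'))
    (hsD : ∀ i, ∀ x ∈ s, m i x ≠ 0 → x ∈ D)
    (hblk : ∀ g, E g → ∀ i, ∀ x ∈ s, m i x ≠ 0 → ∀ v ∈ bdry D', ¬ Conn g x v) (k : ℤ) :
    avg (Om D) (fun h => ∏ i, lo s (m i) h) *
        ∑ h ∈ Om D', (if E (lev k h) then (1 : ℝ) else 0) ≤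
      ∑ h ∈ Om D', (if E (lev k h) then ∏ i, lo s (m i) (lev k h) else 0) := by
  rw [Lv_rw hs hloc, Lv_card hloc, avg_prod_lo, Finset.sum_mul]
  refine Finset.sum_le_sum fun p hp => ?_
  rw [mul_assoc]
  by_cases hz : ∀ i, m i (p i) ≠ 0
  · refine mul_le_mul_of_nonneg_left ?_ (Finset.prod_nonneg fun i _ => hm i _)
    refine lo_fin hD hDD' (A := Lk D' k) (fun g => mem_Lk) hE (fun g _ hg i v hv => ?_)
      (fun i => hsD i _ (Fintype.mem_piFinset.1 hp i) (hz i)) (fun g => Finset.mem_filter)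
    exact hblk g hg i (p i) (Fintype.mem_piFinset.1 hp i) (hz i) v hv
  · push Not at hz
    obtain ⟨i, hi⟩ := hz
    rw [Finset.prod_eq_zero (Finset.mem_univ i) hi, zero_mul, zero_mul]

open Classical in
/-- (8b), one level, an even number of factors: no blocking hypothesis -/
theorem lev_lower_even (hn : Even n) (hD : BdryPar D 0) (hDD' : D ⊆ D') (hs : s ⊆ D')
    (hm : ∀ i x, 0 ≤ m i x)
    (hE : ∀ g g' : V → ℤ, (∀ v ∉ core D, |g v| = |g' v|) → E g → E g')
    (hloc : ∀ g g' : V → ℤ, (∀ x ∈ D', g x = g' x) → (E g ↔ E g'))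
    (hsD : ∀ i, ∀ x ∈ s, m i x ≠ 0 → x ∈ D) (k : ℤ) :
    avg (Om D) (fun h => ∏ i, lo s (m i) h) *
        ∑ h ∈ Om D', (if E (lev k h) then (1 : ℝ) else 0) ≤
      ∑ h ∈ Om D', (if E (lev k h) then ∏ i, lo s (m i) (lev k h) else 0) := by
  rw [Lv_rw hs hloc, Lv_card hloc, avg_prod_lo, Finset.sum_mul]
  refine Finset.sum_le_sum fun p hp => ?_
  rw [mul_assoc]
  by_cases hz : ∀ i, m i (p i) ≠ 0
  · refine mul_le_mul_of_nonneg_left ?_ (Finset.prod_nonneg fun i _ => hm i _)
    exact lo_even hn hD hDD' (A := Lk D' k) (fun g => mem_Lk) hE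
      (fun i => hsD i _ (Fintype.mem_piFinset.1 hp i) (hz i)) (fun g => Finset.mem_filter)
  · push Not at hz
    obtain ⟨i, hi⟩ := hz
    rw [Finset.prod_eq_zero (Finset.mem_univ i) hi, zero_mul, zero_mul]

end

end SW
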