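import Pool.Agent.Helper78.SW.Mm
import Pool.Agent.Helper33.DV.Ev3
import Pool.Agent.Helper94.BR.Geo

/-!
# Block SANDWICH: the field in a weighted floating measure, polyominoes
-/

open Finset RP4 DV Filter Topology
open GF (Pl)
open GF.Lat (Xd win Xd_eq)

namespace SW

open Classical in
/-- the weight of an event -/
noncomputable def iw (E : (V → ℤ) → Prop) : (V → ℤ) → ℝ := fun h => if E h then 1 else 0

lemma iw_ne {E : (V → ℤ) → Prop} {h : V → ℤ} : iw E h ≠ 0 ↔ E h := by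
  unfold iw
  split_ifs with h1 <;> simp [h1]

lemma cx_iw (E : (V → ℤ) → Prop) : cx (iw E) = ev E (fun _ => 1) := by
  funext h
  unfold cx iw ev
  split_ifs <;> simp

lemma cx_mul_iw (E : (V → ℤ) → Prop) (F : (V → ℤ) → ℝ) :
    cx (fun h => F h * iw E h) = ev E F := by
  funext h
  unfold cx iw ev
  by_cases hE : E h
  · simp only [if_pos hE, mul_one]
  · simp only [if_neg hE, mul_zero, Complex.ofReal_zero]

lemma PnE.of_Pn {t : Finset V} {E : (V → ℤ) → Prop} (h : Pn t (cx (iw E))) : PnE t E := by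
  refine ⟨fun g g' hg => ?_, ?_⟩
  · have h1 : iw E g = iw E g' := by
      have := h.loc g g' hg
      unfold cx at this
      exact_mod_cast this
    exact iw_ne.symm.trans ((by rw [h1] : iw E g ≠ 0 ↔ iw E g' ≠ 0).trans iw_ne)
  · obtain ⟨N, hN⟩ := h.pin
    refine ⟨N, fun g hg => hN g ?_⟩
    unfold cx
    exact Complex.ofReal_ne_zero.2 (iw_ne.2 hg)

lemma PnE.to_Pn {t : Finset V} {E : (V → ℤ) → Prop} (h : PnE t E) : Pn t (cx (iw E)) := by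
  rw [cx_iw]
  exact h.pn1

/-- the field as a linear observable -/
lemma Xd_lo {f : Pl → ℝ} {R δ : ℝ} (hδ : 0 < δ) (hR : 0 ≤ R)
    (hf : ∀ z, f z ≠ 0 → |z.1| ≤ R ∧ |z.2| ≤ R) (h : V → ℤ) :
    Xd δ f h = lo (win δ R) (mass δ f) h := Xd_eq hδ hR hf (Finset.Subset.refl _) h

section

variable {n : ℕ} {D t : Finset V} {E : (V → ℤ) → Prop} {δ R : ℝ} {f : Fin n → Pl → ℝ}

/-- (8a): upper bound of the moments of the field in the floating measure with the weight `E` -/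
theorem MR_upper (hd : Deloc) (hD : BdryPar D 0) (hE : Dec E) (hp : Pn t (cx (iw E)))
    (hδ : 0 < δ) (hR : 0 ≤ R) (hf : ∀ i z, f i z ≠ 0 → |z.1| ≤ R ∧ |z.2| ≤ R)
    (hf0 : ∀ i z, 0 ≤ f i z)
    (hblk : ∀ g, E g → ∀ i, ∀ x, mass δ (f i) x ≠ 0 → ∀ v ∉ core D, ¬ Conn g x v) :
    MR (fun h => (∏ i, Xd δ (f i) h) * iw E h) ≤
      avg (Om D) (fun h => ∏ i, Xd δ (f i) h) * MR (iw E) := by
  unfold MR
  rw [cx_mul_iw, cx_iw]
  have h1 : (fun h : V → ℤ => ∏ i, Xd δ (f i) h) =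
      fun h => ∏ i, lo (win δ R) (mass δ (f i)) h := by
    funext h
    exact Finset.prod_congr rfl fun i _ => Xd_lo hδ hR (hf i) h
  rw [h1]
  exact M_upper hd hD (fun i x => mass_nonneg δ (hf0 i) x) hE (PnE.of_Pn hp)
    fun g hg i x _ hx => hblk g hg i x hx

/-- (8b): lower bound of the moments of the field in the floating measure with the weight `E` -/
theorem MR_lower (hd : Deloc) (hD : BdryPar D 0)
    (hE : ∀ g g' : V → ℤ, (∀ v ∉ core D, |g v| = |g' v|) → E g → E g') (hp : Pn t (cx (iw E)))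
    (hδ : 0 < δ) (hR : 0 ≤ R) (hf : ∀ i z, f i z ≠ 0 → |z.1| ≤ R ∧ |z.2| ≤ R)
    (hf0 : ∀ i z, 0 ≤ f i z) (hfD : ∀ i x, mass δ (f i) x ≠ 0 → x ∈ D) (G : Finset V)
    (hblk : ∀ g, E g → ∀ i, ∀ x, mass δ (f i) x ≠ 0 → ∀ v ∉ G, ¬ Conn g x v) :
    avg (Om D) (fun h => ∏ i, Xd δ (f i) h) * MR (iw E) ≤
      MR (fun h => (∏ i, Xd δ (f i) h) * iw E h) := by
  unfold MR
  rw [cx_mul_iw, cx_iw]
  have h1 : (fun h : V → ℤ => ∏ i, Xd δ (f i) h) =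
      fun h => ∏ i, lo (win δ R) (mass δ (f i)) h := by
    funext h
    exact Finset.prod_congr rfl fun i _ => Xd_lo hδ hR (hf i) h
  rw [h1]
  exact M_lower hd hD (fun i x => mass_nonneg δ (hf0 i) x) hE (PnE.of_Pn hp)
    (fun i x _ hx => hfD i x hx) G fun g hg i x _ hx => hblk g hg i x hx

/-- (8b) for an even number of factors: no blocking hypothesis -/
theorem MR_lower_even (hd : Deloc) (hn : Even n) (hD : BdryPar D 0)
    (hE : ∀ g g' : V → ℤ, (∀ v ∉ core D, |g v| = |g' v|) → E g → E g') (hp : Pn t (cx (iw E)))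
    (hδ : 0 < δ) (hR : 0 ≤ R) (hf : ∀ i z, f i z ≠ 0 → |z.1| ≤ R ∧ |z.2| ≤ R)
    (hf0 : ∀ i z, 0 ≤ f i z) (hfD : ∀ i x, mass δ (f i) x ≠ 0 → x ∈ D) :
    avg (Om D) (fun h => ∏ i, Xd δ (f i) h) * MR (iw E) ≤
      MR (fun h => (∏ i, Xd δ (f i) h) * iw E h) := by
  unfold MR
  rw [cx_mul_iw, cx_iw]
  have h1 : (fun h : V → ℤ => ∏ i, Xd δ (f i) h) =
      fun h => ∏ i, lo (win δ R) (mass δ (f i)) h := by
    funext h
    exact Finset.prod_congr rfl fun i _ => Xd_lo hδ hR (hf i) h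
  rw [h1]
  exact M_lower_even hd hn hD (fun i x => mass_nonneg δ (hf0 i) x) hE (PnE.of_Pn hp)
    (fun i x _ hx => hfD i x hx)

/-- (8a) as a quotient -/
theorem qt_upper (hd : Deloc) (hD : BdryPar D 0) {E : ℝ → (V → ℤ) → Prop} (hE : Dec (E δ))
    (hp : Pn t (cx (iw (E δ)))) (hpos : 0 < MR (iw (E δ)))
    (hδ : 0 < δ) (hR : 0 ≤ R) (hf : ∀ i z, f i z ≠ 0 → |z.1| ≤ R ∧ |z.2| ≤ R)
    (hf0 : ∀ i z, 0 ≤ f i z)
    (hblk : ∀ g, E δ g → ∀ i, ∀ x, mass δ (f i) x ≠ 0 → ∀ v ∉ core D, ¬ Conn g x v) :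
    qt (fun δ => iw (E δ)) (fun δ h => ∏ i, Xd δ (f i) h) δ ≤
      avg (Om D) (fun h => ∏ i, Xd δ (f i) h) := by
  unfold qt
  rw [div_le_iff₀ hpos]
  exact MR_upper hd hD hE hp hδ hR hf hf0 hblk

/-- (8b) as a quotient -/
theorem qt_lower (hd : Deloc) (hD : BdryPar D 0) {E : ℝ → (V → ℤ) → Prop}
    (hE : ∀ g g' : V → ℤ, (∀ v ∉ core D, |g v| = |g' v|) → E δ g → E δ g')
    (hp : Pn t (cx (iw (E δ)))) (hpos : 0 < MR (iw (E δ)))
    (hδ : 0 < δ) (hR : 0 ≤ R) (hf : ∀ i z, f i z ≠ 0 → |z.1| ≤ R ∧ |z.2| ≤ R)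
    (hf0 : ∀ i z, 0 ≤ f i z) (hfD : ∀ i x, mass δ (f i) x ≠ 0 → x ∈ D) (G : Finset V)
    (hblk : ∀ g, E δ g → ∀ i, ∀ x, mass δ (f i) x ≠ 0 → ∀ v ∉ G, ¬ Conn g x v) :
    avg (Om D) (fun h => ∏ i, Xd δ (f i) h) ≤
      qt (fun δ => iw (E δ)) (fun δ h => ∏ i, Xd δ (f i) h) δ := by
  unfold qt
  rw [le_div_iff₀ hpos]
  exact MR_lower hd hD hE hp hδ hR hf hf0 hfD G hblk

/-- (8b) as a quotient, an even number of factors -/
theorem qt_lower_even (hd : Deloc) (hn : Even n) (hD : BdryPar D 0) {E : ℝ → (V → ℤ) → Prop}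
    (hE : ∀ g g' : V → ℤ, (∀ v ∉ core D, |g v| = |g' v|) → E δ g → E δ g')
    (hp : Pn t (cx (iw (E δ)))) (hpos : 0 < MR (iw (E δ)))
    (hδ : 0 < δ) (hR : 0 ≤ R) (hf : ∀ i z, f i z ≠ 0 → |z.1| ≤ R ∧ |z.2| ≤ R)
    (hf0 : ∀ i z, 0 ≤ f i z) (hfD : ∀ i x, mass δ (f i) x ≠ 0 → x ∈ D) :
    avg (Om D) (fun h => ∏ i, Xd δ (f i) h) ≤
      qt (fun δ => iw (E δ)) (fun δ h => ∏ i, Xd δ (f i) h) δ := by
  unfold qt
  rw [le_div_iff₀ hpos]
  exact MR_lower_even hd hn hD hE hp hδ hR hf hf0 hfD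

end

/-! ## block events -/

/-- all blocks around the points of `Z` -/
def BlkZ (δ : ℝ) (Z : Finset Pl) (r s : ℝ) (g : V → ℤ) : Prop := ∀ z ∈ Z, BlkR (nz g) δ z r s

lemma nz_abs (g : V → ℤ) : nz (absf g) = nz g := by
  ext v
  show |g v| ≠ 0 ↔ g v ≠ 0
  exact abs_ne_zero

lemma nz_mono {g g' : V → ℤ} (h0 : ∀ v, 0 ≤ g v) (h : ∀ v, g v ≤ g' v) : nz g ⊆ nz g' := by
  intro v hv
  have h1 := h0 v
  have h2 := h v
  have h3 : g v ≠ 0 := hv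
  show g' v ≠ 0
  omega

lemma dec_BlkR (δ : ℝ) (c : Pl) (r s : ℝ) : Dec fun g => BlkR (nz g) δ c r s := by
  refine ⟨fun g => by simp only [nz_abs], fun g g' h0 h hb u v hu hv hc => ?_⟩
  exact hb u v hu hv (hc.mono (fun _ _ h => h) (nz_mono h0 h))

lemma dec_BlkZ (δ : ℝ) (Z : Finset Pl) (r s : ℝ) : Dec (BlkZ δ Z r s) := by
  refine ⟨fun g => ?_, fun g g' h0 h hb z hz => ?_⟩
  · unfold BlkZ
    simp only [nz_abs]
  · exact (dec_BlkR δ z r s).mono g g' h0 h (hb z hz)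

lemma conn_con {g : V → ℤ} {u v : V} (h : Conn g u v) : Con (nz g) u v := by
  obtain ⟨hu, hr⟩ := h
  induction hr with
  | refl => exact Jn.refl hu
  | tail _ h1 ih => exact ih.step h1.1 h1.2

/-- the blocks on the frontier of a polyomino separate -/
lemma blk_pol {k : ℕ} {S : Finset (ℤ × ℤ)} {δ r t R ρ : ℝ} (hδ : 0 < δ) {Z Z' : Finset Pl}
    (hZ : ∀ z ∈ Z, z ∈ frontier (pol k S)) (hZ' : ∀ z ∈ Z', z ∈ frontier (pol k S))
    (hcov : ∀ p ∈ frontier (pol k S), (∃ z ∈ Z, dist p z < r) ∨ ∃ z ∈ Z', dist p z < t)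
    {g : V → ℤ} (hE : BlkZ δ Z (r + δ) R g) (hF : BlkZ δ Z' (t + δ) ρ g) {x v : V}
    (hx : pt δ x ∈ pol k S) (hx2 : ∀ p ∈ frontier (pol k S), max R ρ ≤ dist (pt δ x) p)
    (hv : pt δ v ∉ pol k S) : ¬ Conn g x v := fun h =>
  barrier_pol hδ hZ hZ' hcov hE hF hx hv (Or.inl hx2) (conn_con h)

/-- the cell of a site with nonzero mass meets the support -/
lemma mass_supp {δ : ℝ} {f : Pl → ℝ} {x : V} (h : mass δ f x ≠ 0) :
    ∃ y, f y ≠ 0 ∧ dist (pt δ x) y ≤ δ / 2 := by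
  by_contra hcon
  push Not at hcon
  apply h
  unfold mass
  refine MeasureTheory.setIntegral_eq_zero_of_forall_eq_zero fun y hy => ?_
  by_contra h0
  have h1 := hcon y h0
  apply absurd h1
  push Not
  unfold cell at hy
  rw [Set.mem_prod, Set.mem_Ico, Set.mem_Ico] at hy
  unfold pt
  rw [Prod.dist_eq, max_le_iff, Real.dist_eq, Real.dist_eq, abs_le, abs_le]
  refine ⟨⟨?_, ?_⟩, ?_, ?_⟩ <;> linarith [hy.1.1, hy.1.2, hy.2.1, hy.2.2]

/-- a site whose cell meets a set inside `P` far from the frontier lies in `P` far from the frontier -/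
lemma site_in {P : Set Pl} {δ a : ℝ} (hδ : 0 < δ) (ha : 0 ≤ a) {f : Pl → ℝ}
    (hf : ∀ y, f y ≠ 0 → y ∈ P ∧ ∀ p ∈ frontier P, a + δ ≤ dist y p) {x : V}
    (hx : mass δ f x ≠ 0) : pt δ x ∈ P ∧ ∀ p ∈ frontier P, a ≤ dist (pt δ x) p := by
  obtain ⟨y, hy, hd⟩ := mass_supp hx
  obtain ⟨h1, h2⟩ := hf y hy
  have h3 : ∀ p ∈ frontier P, a ≤ dist (pt δ x) p := by
    intro p hp
    have h4 := h2 p hp
    have h5 := dist_triangle y (pt δ x) p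
    have h6 : dist y (pt δ x) = dist (pt δ x) y := dist_comm _ _
    linarith
  refine ⟨?_, h3⟩
  by_contra hcon
  obtain ⟨p, hp, hp2⟩ := frontier_segment h1 hcon
  have h4 := h2 p hp
  rw [dist_comm y (pt δ x)] at hp2
  linarith

/-- the blocking hypothesis of (8a) for a polyomino inside `D` and a function supported in the polyomino
away from its frontier -/
theorem blk_core {k : ℕ} {S : Finset (ℤ × ℤ)} {δ r t R ρ : ℝ} (hδ : 0 < δ) {Z Z' : Finset Pl}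
    (hZ : ∀ z ∈ Z, z ∈ frontier (pol k S)) (hZ' : ∀ z ∈ Z', z ∈ frontier (pol k S))
    (hcov : ∀ p ∈ frontier (pol k S), (∃ z ∈ Z, dist p z < r) ∨ ∃ z ∈ Z', dist p z < t)
    (hRρ : 0 ≤ max R ρ) {D : Finset V} (hDP : ∀ v, pt δ v ∈ pol k S → v ∈ core D) {f : Pl → ℝ}
    (hf : ∀ y, f y ≠ 0 → y ∈ pol k S ∧ ∀ p ∈ frontier (pol k S), max R ρ + δ ≤ dist y p)
    {g : V → ℤ} (hE : BlkZ δ Z (r + δ) R g) (hF : BlkZ δ Z' (t + δ) ρ g) {x : V}
    (hx : mass δ f x ≠ 0) {v : V} (hv : v ∉ core D) : ¬ Conn g x v := by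
  obtain ⟨h1, h2⟩ := site_in hδ hRρ hf hx
  exact blk_pol hδ hZ hZ' hcov hE hF h1 h2 fun h => hv (hDP v h)

end SW
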