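import Pool.Agent.Helper97.DV.Gc
import Pool.Agent.Helper63.RP4.M2
import Pool.Agent.Helper63.RP4.A08

/-!
# Project DV (MP_973bc8_pr), block SANDWICH: definitions

Inner and outer part of a function with respect to a set `S` of sites, separating families.
-/

open Finset RP4 DV

namespace SW

open Classical in
/-- the part of `g` on `S` -/
noncomputable def inn (S : Set V) (g : V → ℤ) : V → ℤ := fun v => if v ∈ S then g v else 0

open Classical in
/-- the part of `g` off `S` -/
noncomputable def outp (S : Set V) (g : V → ℤ) : V → ℤ := fun v => if v ∈ S then 0 else g v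

/-- `f` is the inner part of a height function on `S` which vanishes at the outer neighbours of `S` -/
structure InH (S : Set V) (f : V → ℤ) : Prop where
  off : ∀ v, v ∉ S → f v = 0
  par : ∀ v ∈ S, Even (f v - RP4.par v)
  step : ∀ u ∈ S, ∀ v, Adj u v → |f u - f v| = 1

/-- the family of height functions on `D` with `|g| = ξ` on `Z` and `0 ≤ g` on `B` separates `S`: the
constraints do not touch `S`, the outer neighbours of `S` are zeros -/
structure Sep (D : Finset V) (B Z : Set V) (ξ : V → ℤ) (S : Set V) : Prop where
  sub : ∀ u ∈ S, u ∈ D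
  nb : ∀ u ∈ S, ∀ v, Adj u v → v ∈ D
  nZ : ∀ u ∈ S, u ∉ Z
  nB : ∀ u ∈ S, u ∉ B
  bd : ∀ u ∈ S, ∀ v, Adj u v → v ∉ S → v ∈ Z ∧ ξ v = 0

open Classical in
/-- change of the sign on the cluster of `x` -/
noncomputable def scf (x : V) (h : V → ℤ) : V → ℤ := fun v => if Conn h x v then - h v else h v

end SW
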