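import Pool.Agent.Helper78.SW.Lv
import Pool.Agent.Helper33.DV.Pm4

/-!
# Block SANDWICH: all levels, the floating measure
-/

open Finset RP4 DV Filter Topology

namespace SW

open Classical in
/-- the observable `F` on the event `E` -/
noncomputable def ev (E : (V → ℤ) → Prop) (F : (V → ℤ) → ℝ) : (V → ℤ) → ℂ :=
  fun h => if E h then (F h : ℂ) else 0

open Classical in
/-- the sum over all levels and height functions -/
noncomputable def sumL (D : Finset V) (E : (V → ℤ) → Prop) (F : (V → ℤ) → ℝ) : ℝ :=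
  ∑ h ∈ Om D, ∑ᶠ k : ℤ, (if E (lev k h) then F (lev k h) else 0)

/-- local and pinned event -/
structure PnE (t : Finset V) (E : (V → ℤ) → Prop) : Prop where
  loc : ∀ g g' : V → ℤ, (∀ x ∈ t, g x = g' x) → (E g ↔ E g')
  pin : ∃ N : ℤ, ∀ g : V → ℤ, E g → ∃ x ∈ t, |g x| ≤ N

lemma lo_congr {s : Finset V} {m : V → ℝ} {g g' : V → ℤ} (h : ∀ x ∈ s, g x = g' x) :
    lo s m g = lo s m g' := Finset.sum_congr rfl fun x hx => by rw [h x hx]

lemma PnE.pn {t s : Finset V} {E : (V → ℤ) → Prop} (hE : PnE t E) {F : (V → ℤ) → ℝ}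
    (hF : ∀ g g' : V → ℤ, (∀ x ∈ s, g x = g' x) → F g = F g') : Pn (t ∪ s) (ev E F) := by
  classical
  refine ⟨fun g g' h => ?_, ?_⟩
  · have h1 := hE.loc g g' fun x hx => h x (Finset.mem_union_left _ hx)
    have h2 := hF g g' fun x hx => h x (Finset.mem_union_right _ hx)
    unfold ev
    simp only [h1, h2]
  · obtain ⟨N, hN⟩ := hE.pin
    refine ⟨N, fun h hh => ?_⟩
    have h1 : E h := by
      by_contra hcon
      apply hh
      unfold ev
      rw [if_neg hcon]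
    obtain ⟨x, hx, hx2⟩ := hN h h1
    exact ⟨x, Finset.mem_union_left _ hx, hx2⟩

lemma PnE.pn1 {t : Finset V} {E : (V → ℤ) → Prop} (hE : PnE t E) : Pn t (ev E fun _ => 1) := by
  have h1 := hE.pn (s := ∅) (F := fun _ => (1 : ℝ)) fun _ _ _ => rfl
  rwa [Finset.union_empty] at h1

lemma PnE.fin {t : Finset V} {E : (V → ℤ) → Prop} (hE : PnE t E) (h : V → ℤ) :
    {k : ℤ | E (lev k h)}.Finite := by
  refine (hE.pn1.finite h).subset fun k hk => ?_
  have hk' : E (lev k h) := hk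
  show ev E (fun _ => 1) (lev k h) ≠ 0
  unfold ev
  rw [if_pos hk']
  simp

/-- all levels in a finite set -/
lemma PnE.exists_T {t : Finset V} {E : (V → ℤ) → Prop} (hE : PnE t E) (D : Finset V) :
    ∃ T : Finset ℤ, ∀ g ∈ Om D, ∀ k, E (lev k g) → k ∈ T := by
  classical
  refine ⟨(Om D).biUnion fun g => (hE.fin g).toFinset, fun g hg k hk => ?_⟩
  rw [Finset.mem_biUnion]
  exact ⟨g, hg, (hE.fin g).mem_toFinset.2 hk⟩

open Classical in
lemma sumL_eq {D : Finset V} {E : (V → ℤ) → Prop} (F : (V → ℤ) → ℝ) {T : Finset ℤ}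
    (hT : ∀ g ∈ Om D, ∀ k, E (lev k g) → k ∈ T) :
    sumL D E F = ∑ k ∈ T, ∑ g ∈ Om D, (if E (lev k g) then F (lev k g) else 0) := by
  unfold sumL
  rw [Finset.sum_comm]
  refine Finset.sum_congr rfl fun g hg => ?_
  refine finsum_eq_sum_of_support_subset _ fun k hk => ?_
  by_contra hcon
  apply hk
  have h1 : ¬ E (lev k g) := fun h => hcon (hT g hg k h)
  show (if E (lev k g) then F (lev k g) else 0 : ℝ) = 0
  rw [if_neg h1]

lemma MD_ev {D t : Finset V} {E : (V → ℤ) → Prop} (hE : PnE t E) (F : (V → ℤ) → ℝ) :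
    MD D (ev E F) = ((sumL D E F / (Om D).card : ℝ) : ℂ) := by
  classical
  unfold MD avc sumL
  push_cast
  congr 1
  refine Finset.sum_congr rfl fun g _ => ?_
  unfold per
  rw [finsum_eq_sum_of_support_subset (s := (hE.fin g).toFinset), finsum_eq_sum_of_support_subset
    (s := (hE.fin g).toFinset)]
  · push_cast
    refine Finset.sum_congr rfl fun k _ => ?_
    unfold ev
    split_ifs <;> simp
  · intro k hk
    rw [(hE.fin g).coe_toFinset]
    by_contra hcon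
    apply hk
    have h1 : ¬ E (lev k g) := hcon
    show (if E (lev k g) then F (lev k g) else 0 : ℝ) = 0
    rw [if_neg h1]
  · intro k hk
    rw [(hE.fin g).coe_toFinset]
    by_contra hcon
    apply hk
    have h1 : ¬ E (lev k g) := hcon
    show ev E F (lev k g) = 0
    unfold ev
    rw [if_neg h1]

section

variable {n : ℕ} {D D' s t : Finset V} {m : Fin n → V → ℝ} {E : (V → ℤ) → Prop}

/-- (8a), all levels -/
theorem sumL_upper (hD : BdryPar D 0) (hDD' : D ⊆ D') (hs : s ⊆ D') (ht : t ⊆ D')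
    (hm : ∀ i x, 0 ≤ m i x) (hE : Dec E) (hp : PnE t E)
    (hblk : ∀ g, E g → ∀ i, ∀ x ∈ s, m i x ≠ 0 → ∀ v ∉ core D, ¬ Conn g x v) :
    sumL D' E (fun h => ∏ i, lo s (m i) h) ≤
      avg (Om D) (fun h => ∏ i, lo s (m i) h) * sumL D' E (fun _ => 1) := by
  classical
  obtain ⟨T, hT⟩ := hp.exists_T D'
  rw [sumL_eq _ hT, sumL_eq _ hT, Finset.mul_sum]
  refine Finset.sum_le_sum fun k _ => ?_
  exact lev_upper hD hDD' hs hm hE (fun g g' h => hp.loc g g' fun x hx => h x (ht hx)) hblk k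

/-- (8b), all levels -/
theorem sumL_lower (hD : BdryPar D 0) (hDD' : D ⊆ D') (hs : s ⊆ D') (ht : t ⊆ D')
    (hm : ∀ i x, 0 ≤ m i x) (hE : ∀ g g' : V → ℤ, (∀ v ∉ core D, |g v| = |g' v|) → E g → E g')
    (hp : PnE t E) (hsD : ∀ i, ∀ x ∈ s, m i x ≠ 0 → x ∈ D)
    (hblk : ∀ g, E g → ∀ i, ∀ x ∈ s, m i x ≠ 0 → ∀ v ∈ bdry D', ¬ Conn g x v) :
    avg (Om D) (fun h => ∏ i, lo s (m i) h) * sumL D' E (fun _ => 1) ≤
      sumL D' E (fun h => ∏ i, lo s (m i) h) := by
  classical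
  obtain ⟨T, hT⟩ := hp.exists_T D'
  rw [sumL_eq _ hT, sumL_eq _ hT, Finset.mul_sum]
  refine Finset.sum_le_sum fun k _ => ?_
  exact lev_lower hD hDD' hs hm hE (fun g g' h => hp.loc g g' fun x hx => h x (ht hx)) hsD hblk k

lemma M_ev_tendsto (hd : Deloc) (hp : PnE t E) {F : (V → ℤ) → ℝ}
    (hF : ∀ g g' : V → ℤ, (∀ x ∈ s, g x = g' x) → F g = F g') :
    Tendsto (fun D => sumL D E F / (Om D).card) dom (𝓝 (M (ev E F)).re) := by
  have h1 := (Complex.continuous_re.tendsto _).comp (M_tendsto hd (hp.pn hF))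
  refine h1.congr fun D' => ?_
  simp only [Function.comp_apply]
  rw [MD_ev hp, Complex.ofReal_re]

/-- (8a) for the floating measure -/
theorem M_upper (hd : Deloc) (hD : BdryPar D 0) (hm : ∀ i x, 0 ≤ m i x) (hE : Dec E)
    (hp : PnE t E) (hblk : ∀ g, E g → ∀ i, ∀ x ∈ s, m i x ≠ 0 → ∀ v ∉ core D, ¬ Conn g x v) :
    (M (ev E fun h => ∏ i, lo s (m i) h)).re ≤
      avg (Om D) (fun h => ∏ i, lo s (m i) h) * (M (ev E fun _ => 1)).re := by
  classical
  have := dom_neBot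
  have h1 := M_ev_tendsto (s := s) hd hp (F := fun h => ∏ i, lo s (m i) h) fun g g' h =>
    Finset.prod_congr rfl fun i _ => lo_congr h
  have h2 := (M_ev_tendsto (s := s) hd hp (F := fun _ => 1) fun _ _ _ => rfl).const_mul
    (avg (Om D) (fun h => ∏ i, lo s (m i) h))
  refine le_of_tendsto_of_tendsto h1 h2 (eventually_dom.2 ⟨D ∪ s ∪ t, fun D' hD' _ => ?_⟩)
  beta_reduce
  rw [← mul_div_assoc]
  refine div_le_div_of_nonneg_right ?_ (Nat.cast_nonneg _)
  exact sumL_upper hD (fun x hx => hD' (by simp [hx])) (fun x hx => hD' (by simp [hx]))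
    (fun x hx => hD' (by simp [hx])) hm hE hp hblk

/-- (8b) for the floating measure; the clusters of the supports stay in the finite set `G` -/
theorem M_lower (hd : Deloc) (hD : BdryPar D 0) (hm : ∀ i x, 0 ≤ m i x)
    (hE : ∀ g g' : V → ℤ, (∀ v ∉ core D, |g v| = |g' v|) → E g → E g')
    (hp : PnE t E) (hsD : ∀ i, ∀ x ∈ s, m i x ≠ 0 → x ∈ D) (G : Finset V)
    (hblk : ∀ g, E g → ∀ i, ∀ x ∈ s, m i x ≠ 0 → ∀ v ∉ G, ¬ Conn g x v) :
    avg (Om D) (fun h => ∏ i, lo s (m i) h) * (M (ev E fun _ => 1)).re ≤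
      (M (ev E fun h => ∏ i, lo s (m i) h)).re := by
  classical
  have := dom_neBot
  have h1 := M_ev_tendsto (s := s) hd hp (F := fun h => ∏ i, lo s (m i) h) fun g g' h =>
    Finset.prod_congr rfl fun i _ => lo_congr h
  have h2 := (M_ev_tendsto (s := s) hd hp (F := fun _ => 1) fun _ _ _ => rfl).const_mul
    (avg (Om D) (fun h => ∏ i, lo s (m i) h))
  -- a neighbourhood of `G`
  obtain ⟨G', hG'⟩ : ∃ G' : Finset V, ∀ v ∈ G, ∀ u, Adj u v → u ∈ G' := by
    refine ⟨G.biUnion fun v => {(v.1 + 1, v.2), (v.1 - 1, v.2), (v.1, v.2 + 1), (v.1, v.2 - 1)},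
      fun v hv u huv => ?_⟩
    rw [Finset.mem_biUnion]
    refine ⟨v, hv, ?_⟩
    rcases adj_cases (adj_symm huv) with h | h | h | h <;> simp [h]
  refine le_of_tendsto_of_tendsto h2 h1 (eventually_dom.2 ⟨D ∪ s ∪ t ∪ G ∪ G', fun D' hD' _ => ?_⟩)
  beta_reduce
  rw [← mul_div_assoc]
  refine div_le_div_of_nonneg_right ?_ (Nat.cast_nonneg _)
  refine sumL_lower hD (fun x hx => hD' (by simp [hx])) (fun x hx => hD' (by simp [hx]))
    (fun x hx => hD' (by simp [hx])) hm hE hp hsD fun g hg i x hx hx0 v hv => ?_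
  refine hblk g hg i x hx hx0 v fun hvG => ?_
  obtain ⟨-, u, huv, hu⟩ := mem_bdry.1 hv
  exact hu (hD' (by simp [hG' v hvG u huv]))

/-- (8b), all levels, an even number of factors -/
theorem sumL_lower_even (hn : Even n) (hD : BdryPar D 0) (hDD' : D ⊆ D') (hs : s ⊆ D')
    (ht : t ⊆ D') (hm : ∀ i x, 0 ≤ m i x)
    (hE : ∀ g g' : V → ℤ, (∀ v ∉ core D, |g v| = |g' v|) → E g → E g')
    (hp : PnE t E) (hsD : ∀ i, ∀ x ∈ s, m i x ≠ 0 → x ∈ D) :
    avg (Om D) (fun h => ∏ i, lo s (m i) h) * sumL D' E (fun _ => 1) ≤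
      sumL D' E (fun h => ∏ i, lo s (m i) h) := by
  classical
  obtain ⟨T, hT⟩ := hp.exists_T D'
  rw [sumL_eq _ hT, sumL_eq _ hT, Finset.mul_sum]
  refine Finset.sum_le_sum fun k _ => ?_
  exact lev_lower_even hn hD hDD' hs hm hE
    (fun g g' h => hp.loc g g' fun x hx => h x (ht hx)) hsD k

/-- (8b) for the floating measure, an even number of factors -/
theorem M_lower_even (hd : Deloc) (hn : Even n) (hD : BdryPar D 0) (hm : ∀ i x, 0 ≤ m i x)
    (hE : ∀ g g' : V → ℤ, (∀ v ∉ core D, |g v| = |g' v|) → E g → E g')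
    (hp : PnE t E) (hsD : ∀ i, ∀ x ∈ s, m i x ≠ 0 → x ∈ D) :
    avg (Om D) (fun h => ∏ i, lo s (m i) h) * (M (ev E fun _ => 1)).re ≤
      (M (ev E fun h => ∏ i, lo s (m i) h)).re := by
  classical
  have := dom_neBot
  have h1 := M_ev_tendsto (s := s) hd hp (F := fun h => ∏ i, lo s (m i) h) fun g g' h =>
    Finset.prod_congr rfl fun i _ => lo_congr h
  have h2 := (M_ev_tendsto (s := s) hd hp (F := fun _ => 1) fun _ _ _ => rfl).const_mul
    (avg (Om D) (fun h => ∏ i, lo s (m i) h))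
  refine le_of_tendsto_of_tendsto h2 h1 (eventually_dom.2 ⟨D ∪ s ∪ t, fun D' hD' _ => ?_⟩)
  beta_reduce
  rw [← mul_div_assoc]
  refine div_le_div_of_nonneg_right ?_ (Nat.cast_nonneg _)
  exact sumL_lower_even hn hD (fun x hx => hD' (by simp [hx])) (fun x hx => hD' (by simp [hx]))
    (fun x hx => hD' (by simp [hx])) hm hE hp hsD

end

end SW
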