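import Pool.Agent.Helper78.SW.Defs

/-!
# Block SANDWICH: products of heights as cluster quantities, general families
-/

open Finset RP4 DV

namespace SW

private lemma Pc_conn_mono {x y : V} {g g' : V → ℤ} (h : ∀ v, g v ≠ 0 → g' v ≠ 0)
    (hc : Conn g x y) : Conn g' x y := by
  obtain ⟨hx, hr⟩ := hc
  refine ⟨h x hx, ?_⟩
  induction hr with
  | refl => exact Relation.ReflTransGen.refl
  | tail _ huv ih => exact ih.tail ⟨huv.1, h _ huv.2⟩

private lemma Pc_conn_iff {x y : V} {g g' : V → ℤ} (h : ∀ v, |g v| = |g' v|) :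
    Conn g x y ↔ Conn g' x y :=
  ⟨Pc_conn_mono (fun v hv => abs_ne_zero.1 (by rw [← h v]; exact abs_ne_zero.2 hv)),
    Pc_conn_mono (fun v hv => abs_ne_zero.1 (by rw [h v]; exact abs_ne_zero.2 hv))⟩

private lemma Pc_conn_symm {g : V → ℤ} {x y : V} (hc : Conn g x y) : Conn g y x := by
  obtain ⟨hx, hr⟩ := hc
  induction hr with
  | refl => exact ⟨hx, Relation.ReflTransGen.refl⟩
  | @tail u v _ huv ih =>
    have hvu : Adj v u := by
      have h := huv.1
      unfold Adj at *
      rw [abs_sub_comm v.1, abs_sub_comm v.2]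
      exact h
    exact ⟨huv.2, Relation.ReflTransGen.head ⟨hvu, ih.1⟩ ih.2⟩

private lemma Pc_conn_trans {g : V → ℤ} {x y z : V} (h1 : Conn g x y) (h2 : Conn g y z) :
    Conn g x z := ⟨h1.1, h1.2.trans h2.2⟩

private lemma Pc_conn_refl {g : V → ℤ} {x : V} (h : g x ≠ 0) : Conn g x x :=
  ⟨h, Relation.ReflTransGen.refl⟩

private lemma Pc_sign {D : Finset V} {q : ℤ} {h : V → ℤ} (hh : IsHom D q h) {x y : V}
    (hc : Conn h x y) : 0 < h x * h y := by
  obtain ⟨hx, hr⟩ := hc
  induction hr with
  | refl => exact mul_self_pos.2 hx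
  | @tail u v _ huv ih =>
    have hu : h u ≠ 0 := by
      intro h0
      rw [h0, mul_zero] at ih
      exact lt_irrefl _ ih
    have huD : u ∈ D := by
      by_contra hcon
      exact hu (hh.off u hcon)
    have hvD : v ∈ D := by
      by_contra hcon
      exact huv.2 (hh.off v hcon)
    have h1 := hh.step u huD v hvD huv.1
    have h2 := huv.2
    have h3 : (0 < h u ∧ 0 < h v) ∨ (h u < 0 ∧ h v < 0) := by
      rcases abs_cases (h u - h v) with ⟨h4, h5⟩ | ⟨h4, h5⟩ <;> rw [h4] at h1 <;> omega
    rcases h3 with ⟨h4, h5⟩ | ⟨h4, h5⟩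
    · have h6 : 0 < h x := by
        by_contra hcon
        push Not at hcon
        have := mul_nonpos_of_nonpos_of_nonneg hcon h4.le
        omega
      exact mul_pos h6 h5
    · have h6 : h x < 0 := by
        by_contra hcon
        push Not at hcon
        have := mul_nonpos_of_nonneg_of_nonpos hcon h4.le
        omega
      exact mul_pos_of_neg_of_neg h6 h5

private lemma Pc_abs (x : V) (h : V → ℤ) (v : V) : |scf x h v| = |h v| := by
  unfold scf
  split_ifs
  · exact abs_neg _
  · rfl

private lemma Pc_conn (x : V) (h : V → ℤ) : Conn (scf x h) = Conn h := by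
  funext a b
  exact propext (Pc_conn_iff (Pc_abs x h))

private lemma Pc_flip_flip (x : V) (h : V → ℤ) : scf x (scf x h) = h := by
  funext v
  by_cases hc : Conn h x v
  · have h2 : Conn (scf x h) x v := by
      rw [Pc_conn]
      exact hc
    have e1 : scf x (scf x h) v = - scf x h v := by
      conv_lhs => unfold scf
      exact if_pos h2
    have e2 : scf x h v = - h v := by
      unfold scf
      exact if_pos hc
    rw [e1, e2, neg_neg]
  · have h2 : ¬ Conn (scf x h) x v := by
      rw [Pc_conn]
      exact hc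
    have e1 : scf x (scf x h) v = scf x h v := by
      conv_lhs => unfold scf
      exact if_neg h2
    have e2 : scf x h v = h v := by
      unfold scf
      exact if_neg hc
    rw [e1, e2]

private lemma Pc_ext {h : V → ℤ} {x u v : V} (hc : Conn h x u) (huv : Adj u v) (hv : h v ≠ 0) :
    Conn h x v := ⟨hc.1, hc.2.tail ⟨huv, hv⟩⟩

open Classical in
/-- some index with an odd class -/
private noncomputable def Pc_sel {n : ℕ} (Q : Fin n → Prop) : Option (Fin n) :=
  if hQ : ∃ i, Q i then some hQ.choose else none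

private lemma Pc_sel_some {n : ℕ} {Q : Fin n → Prop} {i : Fin n} (h : Pc_sel Q = some i) :
    Q i := by
  unfold Pc_sel at h
  split_ifs at h with hQ
  have h2 := hQ.choose_spec
  rw [Option.some.inj h] at h2
  exact h2

private lemma Pc_sel_none {n : ℕ} {Q : Fin n → Prop} (h : Pc_sel Q = none) (i : Fin n) :
    ¬ Q i := by
  unfold Pc_sel at h
  split_ifs at h with hQ
  exact fun hi => hQ ⟨i, hi⟩

open Classical in
/-- the class of an index is odd -/
private def Pc_odd {n : ℕ} (p : Fin n → V) (h : V → ℤ) (i : Fin n) : Prop :=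
  Odd (Finset.univ.filter (fun j => Conn h (p i) (p j))).card

/-- change of the sign on an odd cluster -/
private noncomputable def Pc_inv {n : ℕ} (p : Fin n → V) (h : V → ℤ) : V → ℤ :=
  match Pc_sel (Pc_odd p h) with
  | none => h
  | some i => scf (p i) h

private lemma Pc_inv_none {n : ℕ} {p : Fin n → V} {h : V → ℤ}
    (hs : Pc_sel (Pc_odd p h) = none) : Pc_inv p h = h := by
  unfold Pc_inv
  rw [hs]

private lemma Pc_inv_some {n : ℕ} {p : Fin n → V} {h : V → ℤ} {i : Fin n}
    (hs : Pc_sel (Pc_odd p h) = some i) : Pc_inv p h = scf (p i) h := by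
  unfold Pc_inv
  rw [hs]

private lemma Pc_odd_flip {n : ℕ} (p : Fin n → V) (h : V → ℤ) (x : V) :
    Pc_odd p (scf x h) = Pc_odd p h := by
  funext i
  unfold Pc_odd
  rw [Pc_conn]

private lemma Pc_inv_inv {n : ℕ} (p : Fin n → V) (h : V → ℤ) :
    Pc_inv p (Pc_inv p h) = h := by
  rcases hs : Pc_sel (Pc_odd p h) with _ | i
  · rw [Pc_inv_none hs, Pc_inv_none hs]
  · rw [Pc_inv_some hs, Pc_inv_some (i := i) (by rw [Pc_odd_flip]; exact hs), Pc_flip_flip]

private lemma Pc_clm_zero {n : ℕ} {p : Fin n → V} {h : V → ℤ} {i : Fin n}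
    (hi : Pc_odd p h i) : clm p h = 0 := by
  unfold clm
  rw [if_neg]
  rintro ⟨-, h2⟩
  exact (Nat.not_even_iff_odd.2 hi) (h2 i)

private lemma Pc_prod_flip {n : ℕ} {p : Fin n → V} {h : V → ℤ} {i : Fin n}
    (hi : Pc_odd p h i) :
    ∏ j, (scf (p i) h (p j) : ℝ) = - ∏ j, (h (p j) : ℝ) := by
  classical
  have h1 : ∀ j, (scf (p i) h (p j) : ℝ) =
      (if Conn h (p i) (p j) then (-1 : ℝ) else 1) * (h (p j) : ℝ) := by
    intro j
    unfold scf
    split_ifs
    · push_cast
      ring
    · ring
  rw [Finset.prod_congr rfl fun j _ => h1 j, Finset.prod_mul_distrib, Finset.prod_ite,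
    Finset.prod_const, Finset.prod_const_one, mul_one]
  have h2 : (-1 : ℝ) ^ (Finset.univ.filter (fun j => Conn h (p i) (p j))).card = -1 := by
    have h3 : Odd (Finset.univ.filter (fun j => Conn h (p i) (p j))).card := by
      unfold Pc_odd at hi
      convert hi
    exact h3.neg_one_pow
  rw [h2]
  ring

private lemma Pc_prod_even {n : ℕ} {D : Finset V} {q : ℤ} {p : Fin n → V} {h : V → ℤ}
    (hh : IsHom D q h) (hne : ∀ i, h (p i) ≠ 0) (hev : ∀ i, ¬ Pc_odd p h i) :
    ∏ j, (h (p j) : ℝ) = ∏ j, |(h (p j) : ℝ)| := by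
  classical
  set s : Fin n → ℝ := fun j => if 0 < h (p j) then 1 else -1 with hs
  have h1 : ∀ j, (h (p j) : ℝ) = s j * |(h (p j) : ℝ)| := by
    intro j
    rw [hs]
    dsimp only
    split_ifs with h0
    · rw [abs_of_pos (by exact_mod_cast h0), one_mul]
    · have h2 : (h (p j) : ℝ) ≤ 0 := by exact_mod_cast not_lt.1 h0
      rw [abs_of_nonpos h2]
      ring
  rw [Finset.prod_congr rfl fun j _ => h1 j, Finset.prod_mul_distrib]
  have h2 : ∏ j, s j = 1 := by
    set f : Fin n → Finset (Fin n) := fun j => Finset.univ.filter (fun k => Conn h (p j) (p k))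
      with hf
    rw [← Finset.prod_fiberwise_of_maps_to (s := Finset.univ) (t := Finset.univ.image f) (g := f)
      (fun j _ => Finset.mem_image_of_mem f (Finset.mem_univ j)) s]
    refine Finset.prod_eq_one fun c hc => ?_
    obtain ⟨j0, -, rfl⟩ := Finset.mem_image.1 hc
    have hfib : Finset.univ.filter (fun j => f j = f j0) = f j0 := by
      ext j
      rw [Finset.mem_filter]
      constructor
      · rintro ⟨-, hj⟩
        rw [← hj, hf]
        simp only [Finset.mem_filter, Finset.mem_univ, true_and]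
        exact Pc_conn_refl (hne j)
      · intro hj
        have hj' : Conn h (p j0) (p j) := by
          rw [hf] at hj
          simpa only [Finset.mem_filter, Finset.mem_univ, true_and] using hj
        refine ⟨Finset.mem_univ _, ?_⟩
        rw [hf]
        ext k
        simp only [Finset.mem_filter, Finset.mem_univ, true_and]
        exact ⟨fun hk => Pc_conn_trans hj' hk, fun hk => Pc_conn_trans (Pc_conn_symm hj') hk⟩
    rw [hfib]
    have hconst : ∀ j ∈ f j0, s j = s j0 := by
      intro j hj
      have hj' : Conn h (p j0) (p j) := by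
        rw [hf] at hj
        simpa only [Finset.mem_filter, Finset.mem_univ, true_and] using hj
      have h3 := Pc_sign hh hj'
      rw [hs]
      dsimp only
      by_cases h4 : 0 < h (p j0)
      · have h6 : 0 < h (p j) := by
          by_contra hcon
          push Not at hcon
          nlinarith
        rw [if_pos h4, if_pos h6]
      · have h5 : h (p j0) < 0 := lt_of_le_of_ne (not_lt.1 h4) (hne j0)
        have h6 : ¬ 0 < h (p j) := fun h6 => by nlinarith
        rw [if_neg h4, if_neg h6]
    rw [Finset.prod_congr rfl hconst, Finset.prod_const]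
    have h7 : Even (f j0).card := by
      have h8 := hev j0
      unfold Pc_odd at h8
      rw [Nat.not_odd_iff_even] at h8
      convert h8
    have h9 : s j0 = 1 ∨ s j0 = -1 := by
      rw [hs]
      dsimp only
      split_ifs
      · exact Or.inl rfl
      · exact Or.inr rfl
    rcases h9 with h9 | h9
    · rw [h9, one_pow]
    · rw [h9, h7.neg_one_pow]
  rw [h2, one_mul]

/-
Copy the proof of `RP4.prod_clm` (Helper63/RP4/M1.lean, private lemmas `M1a_..`, `M1b_..`): it uses `Zs D q Z` only through `IsHom D q h` (equal signs in a cluster) and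
through the invariance under the change of sign of the cluster of a marked point, which is now a hypothesis.
-/
theorem prod_clm_gen {n : ℕ} {D : Finset V} {q : ℤ} {p : Fin n → V} {A : Finset (V → ℤ)}
    (hA : ∀ h ∈ A, IsHom D q h) (hfl : ∀ h ∈ A, ∀ i, scf (p i) h ∈ A) :
    ∑ h ∈ A, ∏ i, (h (p i) : ℝ) = ∑ h ∈ A, clm p h := by
  classical
  rw [← sub_eq_zero, ← Finset.sum_sub_distrib]
  have hnone : ∀ h ∈ A, Pc_sel (Pc_odd p h) = none →
      ∏ i, (h (p i) : ℝ) - clm p h = 0 := by
    intro h hh hs
    have hev := Pc_sel_none hs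
    by_cases hne : ∀ i, h (p i) ≠ 0
    · rw [Pc_prod_even (hA h hh) hne hev]
      unfold clm
      rw [if_pos ⟨hne, fun i => by
        have h8 := hev i
        unfold Pc_odd at h8
        rw [Nat.not_odd_iff_even] at h8
        convert h8⟩, sub_self]
    · have h1 : clm p h = 0 := by
        unfold clm
        rw [if_neg (fun hcon => hne hcon.1)]
      push Not at hne
      obtain ⟨i, hi⟩ := hne
      rw [h1, Finset.prod_eq_zero (Finset.mem_univ i) (by rw [hi]; simp), sub_zero]
  refine Finset.sum_involution (fun h _ => Pc_inv p h) ?_ ?_ ?_ ?_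
  · intro h hh
    rcases hs : Pc_sel (Pc_odd p h) with _ | i
    · rw [Pc_inv_none hs, hnone h hh hs, add_zero]
    · have hi := Pc_sel_some hs
      have hi' : Pc_odd p (scf (p i) h) i := by
        rw [Pc_odd_flip]
        exact hi
      rw [Pc_inv_some hs, Pc_clm_zero hi, Pc_clm_zero hi', Pc_prod_flip hi]
      ring
  · intro h hh hne heq
    rcases hs : Pc_sel (Pc_odd p h) with _ | i
    · exact hne (hnone h hh hs)
    · have hi := Pc_sel_some hs
      rw [Pc_clm_zero hi, sub_zero] at hne
      have hx : h (p i) ≠ 0 := by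
        intro h0
        apply hne
        rw [Finset.prod_eq_zero (Finset.mem_univ i) (by rw [h0]; simp)]
      rw [Pc_inv_some hs] at heq
      have h3 := congrFun heq (p i)
      have h2 : scf (p i) h (p i) = - h (p i) := by
        unfold scf
        rw [if_pos (Pc_conn_refl hx)]
      rw [h2] at h3
      omega
  · intro h hh
    rcases hs : Pc_sel (Pc_odd p h) with _ | i
    · rw [Pc_inv_none hs]
      exact hh
    · rw [Pc_inv_some hs]
      exact hfl h hh i
  · intro h hh
    exact Pc_inv_inv p h

/-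
See `M1b_flip_mem` in Helper63/RP4/M1.lean (private): the values on the cluster of `x` change their sign.
-/
theorem scf_isHom {D : Finset V} {q : ℤ} {h : V → ℤ} (hh : IsHom D q h) (x : V) :
    IsHom D q (scf x h) := by
  have hzero : ∀ v, h v = 0 → scf x h v = 0 := by
    intro v hv
    have h2 := Pc_abs x h v
    rw [hv, abs_zero] at h2
    exact abs_eq_zero.1 h2
  refine ⟨fun v hv => hzero v (hh.off v hv), fun v hv => ?_, fun u hu v hv huv => ?_⟩
  · have h1 := hh.par v hv
    unfold scf
    split_ifs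
    · rw [Int.even_iff] at h1 ⊢
      omega
    · exact h1
  · have h1 := hh.step u hu v hv huv
    have hvu : Adj v u := by
      have h := huv
      unfold Adj at *
      rw [abs_sub_comm v.1, abs_sub_comm v.2]
      exact h
    unfold scf
    by_cases hu' : Conn h x u
    · by_cases hv' : Conn h x v
      · rw [if_pos hu', if_pos hv']
        have h2 : - h u - - h v = -(h u - h v) := by ring
        rw [h2, abs_neg, h1]
      · rw [if_pos hu', if_neg hv']
        have h2 : h v = 0 := by
          by_contra hcon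
          exact hv' (Pc_ext hu' huv hcon)
        rw [h2, sub_zero] at h1 ⊢
        rw [abs_neg, h1]
    · by_cases hv' : Conn h x v
      · rw [if_neg hu', if_pos hv']
        have h2 : h u = 0 := by
          by_contra hcon
          exact hu' (Pc_ext hv' hvu hcon)
        rw [h2, zero_sub] at h1 ⊢
        rw [neg_neg]
        rw [abs_neg] at h1
        exact h1
      · rw [if_neg hu', if_neg hv']
        exact h1

theorem absf_scf (x : V) (h : V → ℤ) : absf (scf x h) = absf h := by
  funext v
  exact Pc_abs x h v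

/-- the cluster of `x` does not meet `v` -/
theorem scf_off {x v : V} {h : V → ℤ} (hv : ¬ Conn h x v) : scf x h v = h v := by
  unfold scf
  exact if_neg hv

/-
`clm_nonneg`, `clm_abs`, `clm_mono` of Helper63/RP4/M1.lean.
-/
theorem clm_incF {n : ℕ} (p : Fin n → V) : IncF (clm p) := by
  refine ⟨fun g => clm_nonneg p g, fun g => clm_abs p g, fun g g' h1 h2 => ?_⟩
  refine clm_mono fun v => ?_
  rw [abs_of_nonneg (h1 v), abs_of_nonneg ((h1 v).trans (h2 v))]
  exact h2 v

/-
The set `A.filter E` is invariant under `scf (p i)`: `E` depends on the absolute value, the boundary values do not change. Then `prod_clm_gen`.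
-/
theorem sum_prod_filter {n : ℕ} {D' : Finset V} {b : ℤ} {p : Fin n → V} {A : Finset (V → ℤ)}
    (hA : ∀ g, g ∈ A ↔ IsHom D' 0 g ∧ ∀ v ∈ bdry D', g v = b) {E : (V → ℤ) → Prop}
    (hE : ∀ g, E (absf g) ↔ E g) (hblk : ∀ g ∈ A, E g → ∀ i, ∀ v ∈ bdry D', ¬ Conn g (p i) v)
    {A' : Finset (V → ℤ)} (hA' : ∀ g, g ∈ A' ↔ g ∈ A ∧ E g) :
    ∑ g ∈ A', ∏ i, (g (p i) : ℝ) = ∑ g ∈ A', clm p g := by
  refine prod_clm_gen (D := D') (q := 0) (fun h hh => ((hA h).1 ((hA' h).1 hh).1).1)
    (fun h hh i => ?_)
  obtain ⟨h1, h2⟩ := (hA' h).1 hh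
  obtain ⟨h3, h4⟩ := (hA h).1 h1
  refine (hA' _).2 ⟨(hA _).2 ⟨scf_isHom h3 (p i), fun v hv => ?_⟩, ?_⟩
  · rw [scf_off (hblk h h1 h2 i v hv)]
    exact h4 v hv
  · rw [← hE, absf_scf, hE]
    exact h2

/-! ## an even number of marked points, clusters which touch the boundary -/

open Classical in
/-- the class of an index is odd and its cluster does not meet `B` -/
private def Pe_odd {n : ℕ} (B : Finset V) (p : Fin n → V) (h : V → ℤ) (i : Fin n) : Prop :=
  Odd (Finset.univ.filter (fun j => Conn h (p i) (p j))).card ∧ ∀ v ∈ B, ¬ Conn h (p i) v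

/-- change of the sign on an odd cluster which does not meet `B` -/
private noncomputable def Pe_inv {n : ℕ} (B : Finset V) (p : Fin n → V) (h : V → ℤ) : V → ℤ :=
  match Pc_sel (Pe_odd B p h) with
  | none => h
  | some i => scf (p i) h

private lemma Pe_inv_none {n : ℕ} {B : Finset V} {p : Fin n → V} {h : V → ℤ}
    (hs : Pc_sel (Pe_odd B p h) = none) : Pe_inv B p h = h := by
  unfold Pe_inv
  rw [hs]

private lemma Pe_inv_some {n : ℕ} {B : Finset V} {p : Fin n → V} {h : V → ℤ} {i : Fin n}
    (hs : Pc_sel (Pe_odd B p h) = some i) : Pe_inv B p h = scf (p i) h := by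
  unfold Pe_inv
  rw [hs]

private lemma Pe_odd_flip {n : ℕ} (B : Finset V) (p : Fin n → V) (h : V → ℤ) (x : V) :
    Pe_odd B p (scf x h) = Pe_odd B p h := by
  funext i
  unfold Pe_odd
  rw [Pc_conn]

private lemma Pe_inv_inv {n : ℕ} (B : Finset V) (p : Fin n → V) (h : V → ℤ) :
    Pe_inv B p (Pe_inv B p h) = h := by
  rcases hs : Pc_sel (Pe_odd B p h) with _ | i
  · rw [Pe_inv_none hs, Pe_inv_none hs]
  · rw [Pe_inv_some hs, Pe_inv_some (i := i) (by rw [Pe_odd_flip]; exact hs), Pc_flip_flip]

private lemma Pe_prod {n : ℕ} {D : Finset V} {q b : ℤ} {p : Fin n → V} {h : V → ℤ} (hn : Even n)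
    (hh : IsHom D q h) (hb : ∀ v ∈ bdry D, h v = b) (hne : ∀ i, h (p i) ≠ 0)
    (hev : ∀ i, ¬ Pe_odd (bdry D) p h i) :
    ∏ j, (h (p j) : ℝ) = ∏ j, |(h (p j) : ℝ)| := by
  classical
  set s : Fin n → ℝ := fun j => if 0 < h (p j) then 1 else -1 with hs
  have h1 : ∀ j, (h (p j) : ℝ) = s j * |(h (p j) : ℝ)| := by
    intro j
    rw [hs]
    dsimp only
    split_ifs with h0
    · rw [abs_of_pos (by exact_mod_cast h0), one_mul]
    · have h2 : (h (p j) : ℝ) ≤ 0 := by exact_mod_cast not_lt.1 h0
      rw [abs_of_nonpos h2]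
      ring
  rw [Finset.prod_congr rfl fun j _ => h1 j, Finset.prod_mul_distrib]
  have hsign : ∀ x y, Conn h x y → (0 < h x ↔ 0 < h y) := by
    intro x y hxy
    have h3 := Pc_sign hh hxy
    constructor
    · intro h4
      by_contra hcon
      push Not at hcon
      nlinarith
    · intro h4
      by_contra hcon
      push Not at hcon
      nlinarith
  have h2 : ∏ j, s j = 1 := by
    set f : Fin n → Finset (Fin n) := fun j => Finset.univ.filter (fun k => Conn h (p j) (p k))
      with hf
    have hfm : ∀ j k, k ∈ f j ↔ Conn h (p j) (p k) := by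
      intro j k
      rw [hf]
      simp only [Finset.mem_filter, Finset.mem_univ, true_and]
    set N : Finset (Fin n) := Finset.univ.filter (fun j => ∀ v ∈ bdry D, ¬ Conn h (p j) v) with hN
    have hNm : ∀ j, j ∈ N ↔ ∀ v ∈ bdry D, ¬ Conn h (p j) v := by
      intro j
      rw [hN]
      simp only [Finset.mem_filter, Finset.mem_univ, true_and]
    have hfN : ∀ j ∈ N, ∀ k, Conn h (p j) (p k) → k ∈ N := by
      intro j hj k hk
      rw [hNm] at hj ⊢
      exact fun v hv hc => hj v hv (Pc_conn_trans hk hc)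
    have hfib : ∀ j0 ∈ N, N.filter (fun j => f j = f j0) = f j0 := by
      intro j0 hj0
      ext j
      rw [Finset.mem_filter, hfm]
      constructor
      · rintro ⟨-, hj⟩
        rw [← hfm, ← hj, hfm]
        exact Pc_conn_refl (hne j)
      · intro hj'
        refine ⟨hfN j0 hj0 j hj', ?_⟩
        ext k
        rw [hfm, hfm]
        exact ⟨fun hk => Pc_conn_trans hj' hk, fun hk => Pc_conn_trans (Pc_conn_symm hj') hk⟩
    have hfe : ∀ j0 ∈ N, Even (f j0).card := by
      intro j0 hj0
      have h8 := hev j0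
      unfold Pe_odd at h8
      rw [not_and'] at h8
      have h9 := h8 ((hNm j0).1 hj0)
      rw [Nat.not_odd_iff_even] at h9
      convert h9
    have hNe : Even N.card := by
      rw [Finset.card_eq_sum_card_fiberwise (f := f) (t := N.image f)
        (fun j hj => Finset.mem_image_of_mem f hj)]
      refine Finset.even_sum _ fun c hc => ?_
      obtain ⟨j0, hj0, rfl⟩ := Finset.mem_image.1 hc
      rw [hfib j0 hj0]
      exact hfe j0 hj0
    have hNp : ∏ j ∈ N, s j = 1 := by
      rw [← Finset.prod_fiberwise_of_maps_to (s := N) (t := N.image f) (g := f)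
        (fun j hj => Finset.mem_image_of_mem f hj) s]
      refine Finset.prod_eq_one fun c hc => ?_
      obtain ⟨j0, hj0, rfl⟩ := Finset.mem_image.1 hc
      rw [hfib j0 hj0]
      have hconst : ∀ j ∈ f j0, s j = s j0 := by
        intro j hj
        rw [hfm] at hj
        rw [hs]
        dsimp only
        have h3 := hsign _ _ hj
        by_cases h4 : 0 < h (p j0)
        · rw [if_pos h4, if_pos (h3.1 h4)]
        · rw [if_neg h4, if_neg fun h5 => h4 (h3.2 h5)]
      rw [Finset.prod_congr rfl hconst, Finset.prod_const]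
      have h9 : s j0 = 1 ∨ s j0 = -1 := by
        rw [hs]
        dsimp only
        split_ifs
        · exact Or.inl rfl
        · exact Or.inr rfl
      rcases h9 with h9 | h9
      · rw [h9, one_pow]
      · rw [h9, (hfe j0 hj0).neg_one_pow]
    have hTc : Even (Finset.univ.filter (fun j => ¬ j ∈ N)).card := by
      have h3 := Finset.card_filter_add_card_filter_not (s := (Finset.univ : Finset (Fin n)))
        (fun j => j ∈ N)
      have h4 : (Finset.univ : Finset (Fin n)).filter (fun j => j ∈ N) = N := by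
        ext j
        simp
      rw [h4, Finset.card_univ, Fintype.card_fin] at h3
      obtain ⟨a, ha⟩ := hNe
      obtain ⟨c, hc⟩ := hn
      refine ⟨c - a, ?_⟩
      omega
    have hTp : ∏ j ∈ Finset.univ.filter (fun j => ¬ j ∈ N), s j = 1 := by
      have hconst : ∀ j ∈ Finset.univ.filter (fun j => ¬ j ∈ N), s j = if 0 < b then 1 else -1 := by
        intro j hj
        have hj1 := (Finset.mem_filter.1 hj).2
        rw [hNm] at hj1
        push Not at hj1
        obtain ⟨v, hv, hc⟩ := hj1
        have h3 := hsign _ _ hc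
        rw [hb v hv] at h3
        rw [hs]
        dsimp only
        by_cases h4 : 0 < b
        · rw [if_pos h4, if_pos (h3.2 h4)]
        · rw [if_neg h4, if_neg fun h5 => h4 (h3.1 h5)]
      rw [Finset.prod_congr rfl hconst, Finset.prod_const]
      split_ifs
      · rw [one_pow]
      · rw [hTc.neg_one_pow]
    rw [← Finset.prod_filter_mul_prod_filter_not Finset.univ (fun j => j ∈ N) s, hTp, mul_one]
    have h4 : (Finset.univ : Finset (Fin n)).filter (fun j => j ∈ N) = N := by
      ext j
      simp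
    rw [h4, hNp]
  rw [h2, one_mul]

/-- for an even number of marked points the product dominates the cluster weight, without a hypothesis on
the clusters which touch the boundary -/
theorem sum_clm_le_prod {n : ℕ} (hn : Even n) {D : Finset V} {q b : ℤ} {p : Fin n → V}
    {A : Finset (V → ℤ)} (hA : ∀ h ∈ A, IsHom D q h ∧ ∀ v ∈ bdry D, h v = b)
    (hfl : ∀ h ∈ A, ∀ i, (∀ v ∈ bdry D, ¬ Conn h (p i) v) → scf (p i) h ∈ A) :
    ∑ h ∈ A, clm p h ≤ ∑ h ∈ A, ∏ i, (h (p i) : ℝ) := by
  classical
  rw [← sub_nonneg, ← Finset.sum_sub_distrib,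
    ← Finset.sum_filter_add_sum_filter_not A (fun h => Pc_sel (Pe_odd (bdry D) p h) = none)]
  refine add_nonneg (Finset.sum_nonneg fun h hh => ?_) (le_of_eq ?_)
  · obtain ⟨hh, hs⟩ := Finset.mem_filter.1 hh
    have hev := Pc_sel_none hs
    rw [sub_nonneg]
    by_cases hne : ∀ i, h (p i) ≠ 0
    · rw [Pe_prod hn (hA h hh).1 (hA h hh).2 hne hev]
      unfold clm
      split_ifs
      · exact le_rfl
      · exact Finset.prod_nonneg fun i _ => abs_nonneg _
    · have h1 : clm p h = 0 := by
        unfold clm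
        rw [if_neg (fun hcon => hne hcon.1)]
      push Not at hne
      obtain ⟨i, hi⟩ := hne
      rw [h1, Finset.prod_eq_zero (Finset.mem_univ i) (by rw [hi]; simp)]
  · symm
    have hzero : ∀ h : V → ℤ, ∀ i, Pe_odd (bdry D) p h i → clm p h = 0 := by
      intro h i hi
      exact Pc_clm_zero (i := i) hi.1
    refine Finset.sum_involution (fun h _ => Pe_inv (bdry D) p h) ?_ ?_ ?_ ?_
    · intro h hh
      obtain ⟨hh, hs'⟩ := Finset.mem_filter.1 hh
      rcases hs : Pc_sel (Pe_odd (bdry D) p h) with _ | i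
      · exact absurd hs hs'
      · have hi := Pc_sel_some hs
        have hi' : Pe_odd (bdry D) p (scf (p i) h) i := by
          rw [Pe_odd_flip]
          exact hi
        rw [Pe_inv_some hs, hzero _ _ hi, hzero _ _ hi', Pc_prod_flip hi.1]
        ring
    · intro h hh hne heq
      obtain ⟨hh, hs'⟩ := Finset.mem_filter.1 hh
      rcases hs : Pc_sel (Pe_odd (bdry D) p h) with _ | i
      · exact hs' hs
      · have hi := Pc_sel_some hs
        rw [hzero _ _ hi, sub_zero] at hne
        have hx : h (p i) ≠ 0 := by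
          intro h0
          apply hne
          rw [Finset.prod_eq_zero (Finset.mem_univ i) (by rw [h0]; simp)]
        rw [Pe_inv_some hs] at heq
        have h3 := congrFun heq (p i)
        have h2 : scf (p i) h (p i) = - h (p i) := by
          unfold scf
          rw [if_pos (Pc_conn_refl hx)]
        rw [h2] at h3
        omega
    · intro h hh
      obtain ⟨hh, hs'⟩ := Finset.mem_filter.1 hh
      rcases hs : Pc_sel (Pe_odd (bdry D) p h) with _ | i
      · exact absurd hs hs'
      · have hi := Pc_sel_some hs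
        rw [Pe_inv_some hs, Finset.mem_filter]
        refine ⟨hfl h hh i hi.2, ?_⟩
        rw [Pe_odd_flip]
        exact hs'
    · intro h hh
      exact Pe_inv_inv (bdry D) p h

/-- the version of `sum_prod_filter` without a blocking hypothesis -/
theorem sum_clm_filter_le {n : ℕ} (hn : Even n) {D' : Finset V} {b : ℤ} {p : Fin n → V}
    {A : Finset (V → ℤ)} (hA : ∀ g, g ∈ A ↔ IsHom D' 0 g ∧ ∀ v ∈ bdry D', g v = b)
    {E : (V → ℤ) → Prop} (hE : ∀ g, E (absf g) ↔ E g) {A' : Finset (V → ℤ)}
    (hA' : ∀ g, g ∈ A' ↔ g ∈ A ∧ E g) :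
    ∑ g ∈ A', clm p g ≤ ∑ g ∈ A', ∏ i, (g (p i) : ℝ) := by
  refine sum_clm_le_prod hn (D := D') (q := 0) (b := b)
    (fun h hh => (hA h).1 ((hA' h).1 hh).1) (fun h hh i hi => ?_)
  obtain ⟨h1, h2⟩ := (hA' h).1 hh
  obtain ⟨h3, h4⟩ := (hA h).1 h1
  refine (hA' _).2 ⟨(hA _).2 ⟨scf_isHom h3 (p i), fun v hv => ?_⟩, ?_⟩
  · rw [scf_off (hi v hv)]
    exact h4 v hv
  · rw [← hE, absf_scf, hE]
    exact h2

end SW
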