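import Pool.Agent.Helper78.SW.Pc
import Pool.Agent.Helper78.SW.Sp
import Pool.Agent.Helper97.DV.Pz

/-!
# Block SANDWICH: upper bound (2602 (8a)), finite volume
-/

open Finset RP4 DV

namespace SW

lemma mem_core {D : Finset V} {v : V} : v ∈ core D ↔ v ∈ D ∧ v ∉ bdry D := by
  unfold core
  exact Finset.mem_sdiff

lemma core_nb {D : Finset V} {u v : V} (hu : u ∈ core D) (h : Adj u v) : v ∈ D := by
  by_contra hv
  rw [mem_core] at hu
  exact hu.2 (mem_bdry.2 ⟨hu.1, v, adj_symm h, hv⟩)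

lemma core_not_bdry {D D' : Finset V} (hDD' : D ⊆ D') {v : V} (hv : v ∈ core D) :
    v ∉ bdry D' := by
  intro h
  obtain ⟨-, u, huv, hu⟩ := mem_bdry.1 h
  exact hu (hDD' (core_nb hv (adj_symm huv)))

lemma con_conn {g : V → ℤ} {u v : V} (h : Con (nz g) u v) : Conn g u v := by
  refine ⟨h.left, ?_⟩
  obtain ⟨-, h⟩ := h
  exact Relation.ReflTransGen.mono (fun a b hab => ⟨hab.1, hab.2.2⟩) _ _ h

lemma Up_symm {g : V → ℤ} {u v : V} (h : Con (nz g) u v) : Conn g v u := con_conn h.symm'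

/-- the clusters of nonzero sites which meet the complement of the interior of `D` -/
def Out (D : Finset V) (g : V → ℤ) : Set V := clus (nz g) {v | v ∉ core D}

lemma Out_nz {D : Finset V} {g : V → ℤ} {v : V} (hv : v ∈ Out D g) : g v ≠ 0 := clus_sub _ _ hv

lemma Out_off {D : Finset V} {g : V → ℤ} {v : V} (hv : v ∉ core D) (h : g v ≠ 0) : v ∈ Out D g :=
  sub_clus hv h

lemma Out_step {D : Finset V} {g : V → ℤ} {u v : V} (hu : u ∈ Out D g) (h : Adj u v)
    (hv : g v ≠ 0) : v ∈ Out D g := clus_step hu h hv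

/-- the key of a fibre: the absolute value on the outer clusters -/
noncomputable def okey (D : Finset V) (g : V → ℤ) : V → ℤ := absf (inn (Out D g) g)

lemma okey_in {D : Finset V} {g : V → ℤ} {v : V} (hv : v ∈ Out D g) : okey D g v = |g v| := by
  unfold okey absf inn
  rw [if_pos hv]

lemma okey_out {D : Finset V} {g : V → ℤ} {v : V} (hv : v ∉ Out D g) : okey D g v = 0 := by
  unfold okey absf inn
  rw [if_neg hv, abs_zero]

lemma okey_ne {D : Finset V} {g : V → ℤ} {v : V} : okey D g v ≠ 0 ↔ v ∈ Out D g := by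
  constructor
  · intro h
    by_contra hv
    exact h (okey_out hv)
  · intro h
    rw [okey_in h]
    exact abs_ne_zero.2 (Out_nz h)

/-- the sites where the key prescribes the absolute value -/
def Zk (D : Finset V) (ξ : V → ℤ) : Set V :=
  {v | ξ v ≠ 0 ∨ v ∉ core D ∨ ∃ u, ξ u ≠ 0 ∧ Adj u v}

/-- the absolute value of `g` agrees with the key on `Zk` -/
lemma abs_Zk {D : Finset V} {g : V → ℤ} {v : V} (hv : v ∈ Zk D (okey D g)) :
    |g v| = okey D g v := by
  by_cases hO : v ∈ Out D g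
  · exact (okey_in hO).symm
  · rw [okey_out hO, abs_eq_zero]
    rcases hv with h | h | ⟨u, hu, huv⟩
    · exact absurd (okey_ne.1 h) hO
    · by_contra h0
      exact hO (Out_off h h0)
    · by_contra h0
      exact hO (Out_step (okey_ne.1 hu) huv h0)

/-- a function with the same absolute value on `Zk` has the same key -/
lemma okey_eq {D : Finset V} {g g0 : V → ℤ} (h : ∀ v ∈ Zk D (okey D g0), |g v| = okey D g0 v) :
    okey D g = okey D g0 := by
  have hR : ∀ v, v ∈ Out D g ↔ v ∈ Out D g0 := by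
    intro v
    constructor
    · rintro ⟨u, hu, huv⟩
      refine huv.prop (P := fun w => w ∈ Out D g0) ?_ ?_
      · have h1 : u ∈ Zk D (okey D g0) := Or.inr (Or.inl hu)
        have h2 := h u h1
        have h3 : g u ≠ 0 := huv.left
        rw [← okey_ne, ← h2]
        exact abs_ne_zero.2 h3
      · intro a b hab _ hb ha
        have h1 : b ∈ Zk D (okey D g0) := Or.inr (Or.inr ⟨a, okey_ne.2 ha, hab⟩)
        rw [← okey_ne, ← h b h1]
        exact abs_ne_zero.2 hb
    · rintro ⟨u, hu, huv⟩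
      have key : ∀ w, w ∈ Out D g0 → g w ≠ 0 := by
        intro w hw
        have h1 : w ∈ Zk D (okey D g0) := Or.inl (okey_ne.2 hw)
        have h2 := h w h1
        rw [okey_in hw] at h2
        exact abs_ne_zero.1 (by rw [h2]; exact abs_ne_zero.2 (Out_nz hw))
      have hu0 : u ∈ Out D g0 := Out_off hu huv.left
      have h3 := huv.prop (P := fun w => w ∈ Out D g0 ∧ Con (nz g) u w)
        ⟨hu0, Jn.refl (key u hu0)⟩ (fun a b hab _ hb ha => by
          have hb0 := Out_step ha.1 hab hb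
          exact ⟨hb0, ha.2.step hab (key b hb0)⟩)
      exact ⟨u, hu, h3.2⟩
  funext v
  by_cases hv : v ∈ Out D g0
  · rw [okey_in ((hR v).2 hv)]
    exact h v (Or.inl (okey_ne.2 hv))
  · rw [okey_out hv, okey_out (fun h' => hv ((hR v).1 h'))]

lemma Up_zero_even {D : Finset V} {g : V → ℤ} (hg : IsHom D 0 g) {v : V} (hv : v ∈ D)
    (h0 : g v = 0) : Even (par v) := by
  have h1 := hg.par v hv
  rw [h0] at h1
  have h2 : (0 : ℤ) - par v - 0 = -par v := by ring
  rw [h2] at h1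
  exact even_neg.1 h1

private lemma up_nn {n : ℕ} {p : Fin n → V} {D D' : Finset V} (hD : BdryPar D 0) (hDD' : D ⊆ D')
    {b : ℤ} (hb : 0 ≤ b) {A : Finset (V → ℤ)}
    (hA : ∀ g, g ∈ A ↔ IsHom D' 0 g ∧ ∀ v ∈ bdry D', g v = b)
    {E : (V → ℤ) → Prop} (hE : Dec E)
    (hblk : ∀ g ∈ A, E g → ∀ i, ∀ v ∉ core D, ¬ Conn g (p i) v)
    {A' : Finset (V → ℤ)} (hA' : ∀ g, g ∈ A' ↔ g ∈ A ∧ E g) :
    ∑ g ∈ A', clm p g ≤ avg (Om D) (clm p) * A'.card := by
  classical
  -- the fibres
  have h1 := Finset.sum_fiberwise_of_maps_to (s := A') (t := A'.image (okey D)) (g := okey D)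
    (fun g hg => Finset.mem_image_of_mem _ hg) (clm p)
  have h2 := Finset.card_eq_sum_card_fiberwise (s := A') (t := A'.image (okey D)) (f := okey D)
    (fun g hg => Finset.mem_image_of_mem _ hg)
  rw [← h1, h2, Nat.cast_sum, Finset.mul_sum]
  refine Finset.sum_le_sum fun ξ hξ => ?_
  obtain ⟨g0, hg0, rfl⟩ := Finset.mem_image.1 hξ
  have hg0A := ((hA' g0).1 hg0).1
  have hg0E := ((hA' g0).1 hg0).2
  have hg0H := ((hA g0).1 hg0A).1
  set ξ := okey D g0 with hξdef
  set F := A.filter (fun g => okey D g = ξ) with hF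
  set F' := A'.filter (fun g => okey D g = ξ) with hF'
  have hFmem : ∀ g, g ∈ F ↔ g ∈ A ∧ okey D g = ξ := fun g => Finset.mem_filter
  have hF'mem : ∀ g, g ∈ F' ↔ g ∈ F ∧ E g := by
    intro g
    rw [hFmem, hF', Finset.mem_filter, hA' g]
    tauto
  have hg0F' : g0 ∈ F' := Finset.mem_filter.2 ⟨hg0, rfl⟩
  have hFfam : Fam D' 0 (bdry D' : Set V) (Tb (Zk D ξ) ξ) F := by
    intro g
    rw [hFmem]
    constructor
    · rintro ⟨hg, hk⟩
      have hgA := (hA g).1 hg
      refine ⟨hgA.1, fun v hv => ?_, fun v hv => ?_⟩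
      · show |g v| = ξ v
        rw [← hk] at hv ⊢
        exact abs_Zk hv
      · rw [hgA.2 v hv]
        exact hb
    · rintro ⟨hg1, hg2, hg3⟩
      have hg2' : ∀ v ∈ Zk D ξ, |g v| = ξ v := hg2
      refine ⟨(hA g).2 ⟨hg1, fun v hv => ?_⟩, okey_eq hg2'⟩
      have hvc : v ∉ core D := fun h => core_not_bdry hDD' h hv
      have hvZ : v ∈ Zk D ξ := Or.inr (Or.inl hvc)
      have h3 := hg2' v hvZ
      have h4 : |g0 v| = ξ v := abs_Zk hvZ
      rw [((hA g0).1 hg0A).2 v hv, abs_of_nonneg hb] at h4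
      rw [abs_of_nonneg (hg3 v hv), ← h4] at h3
      exact h3
  have hne' : F'.Nonempty := ⟨g0, hg0F'⟩
  have hne : F.Nonempty := ⟨g0, ((hF'mem g0).1 hg0F').1⟩
  have s1 : avg F' (clm p) ≤ avg F (clm p) :=
    avg_filter_dec hFfam (lat_Tb _ _ _ _) hE hF'mem hne' (clm_incF p)
  -- the inner set
  set S : Set V := {v | v ∈ core D ∧ ξ v = 0 ∧ ∀ u, ξ u ≠ 0 → ¬ Adj u v} with hS
  set Z2 : Finset V := bdry D ∪ D.filter (fun v => Even (par v) ∧ (ξ v ≠ 0 ∨ ∃ u, ξ u ≠ 0 ∧ Adj u v))
    with hZ2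
  have hZ2b : bdry D ⊆ Z2 := Finset.subset_union_left
  have hZ2D : Z2 ⊆ D := Finset.union_subset (bdry_subset D) (Finset.filter_subset _ _)
  have hZ2p : ∀ v ∈ Z2, Even (par v - 0) := by
    intro v hv
    rcases Finset.mem_union.1 hv with hv | hv
    · exact hD v hv
    · rw [sub_zero]
      exact (Finset.mem_filter.1 hv).2.1
  have hnS : ∀ v ∈ core D, v ∉ S → ξ v ≠ 0 ∨ ∃ u, ξ u ≠ 0 ∧ Adj u v := by
    intro v hv hvS
    by_contra hcon
    push Not at hcon
    exact hvS ⟨hv, hcon.1, fun u hu => hcon.2 u hu⟩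
  -- a zero of the key next to the outer clusters is an even site
  have heven : ∀ v ∈ D, ξ v = 0 → v ∈ Zk D ξ → Even (par v) := by
    intro v hv h0 hvZ
    refine Up_zero_even hg0H (hDD' hv) ?_
    have h4 : |g0 v| = ξ v := abs_Zk hvZ
    rw [h0] at h4
    exact abs_eq_zero.1 h4
  have sep1 : Sep D' (bdry D' : Set V) (Zk D ξ) ξ S := by
    refine ⟨fun u hu => hDD' (mem_core.1 hu.1).1, fun u hu v huv => hDD' (core_nb hu.1 huv),
      fun u hu => ?_, fun u hu => core_not_bdry hDD' hu.1, fun u hu v huv hv => ?_⟩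
    · rintro (h | h | ⟨w, hw, hwu⟩)
      · exact h hu.2.1
      · exact h hu.1
      · exact hu.2.2 w hw hwu
    · have h0 : ξ v = 0 := by
        by_contra h0
        exact hu.2.2 v h0 (adj_symm huv)
      refine ⟨?_, h0⟩
      by_cases hvc : v ∈ core D
      · rcases hnS v hvc hv with h | h
        · exact absurd h0 h
        · exact Or.inr (Or.inr h)
      · exact Or.inr (Or.inl hvc)
  have sep2 : Sep D ∅ (Z2 : Set V) 0 S := by
    refine ⟨fun u hu => (mem_core.1 hu.1).1, fun u hu v huv => core_nb hu.1 huv,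
      fun u hu h => ?_, fun u _ => Set.notMem_empty u, fun u hu v huv hv => ⟨?_, rfl⟩⟩
    · rcases Finset.mem_union.1 (Finset.mem_coe.1 h) with h | h
      · exact (mem_core.1 hu.1).2 h
      · rcases (Finset.mem_filter.1 h).2.2 with h | ⟨w, hw, hwu⟩
        · exact h hu.2.1
        · exact hu.2.2 w hw hwu
    · have hvD := core_nb hu.1 huv
      have hvZ := (sep1.bd u hu v huv hv)
      refine Finset.mem_coe.2 (Finset.mem_union.2 ?_)
      by_cases hvc : v ∈ core D
      · right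
        exact Finset.mem_filter.2 ⟨hvD, heven v hvD hvZ.2 hvZ.1, hnS v hvc hv⟩
      · left
        by_contra hb
        exact hvc (mem_core.2 ⟨hvD, hb⟩)
  have hneZ : (Zs D 0 Z2).Nonempty := ⟨flat D 0, flat_mem_Zs hZ2b hZ2D hZ2p⟩
  have hnoR : ∀ i, ξ (p i) = 0 := by
    intro i
    by_contra hcon
    obtain ⟨u, hu, huv⟩ := okey_ne.1 hcon
    exact hblk g0 hg0A hg0E i u hu (Up_symm huv)
  have s2 : avg F (clm p) = avg (Zs D 0 Z2) (clm p) := by
    refine markov_clm hFfam (fam_Zs hZ2b) sep1 sep2 hne hneZ fun i => ?_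
    by_cases hi : p i ∈ S
    · exact Or.inl hi
    · right
      have hiZ : p i ∈ Zk D ξ := by
        by_cases hc : p i ∈ core D
        · rcases hnS _ hc hi with h | h
          · exact absurd (hnoR i) h
          · exact Or.inr (Or.inr h)
        · exact Or.inr (Or.inl hc)
      constructor
      · intro g hg
        have h3 : |g (p i)| = ξ (p i) := ((hFfam g).1 hg).2.1 _ hiZ
        rw [hnoR i] at h3
        exact abs_eq_zero.1 h3
      · intro g hg
        rw [mem_Zs hZ2b] at hg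
        by_cases hiD : p i ∈ D
        · refine hg.2 _ ?_
          by_cases hc : p i ∈ core D
          · exact Finset.mem_union.2 (Or.inr (Finset.mem_filter.2
              ⟨hiD, heven _ hiD (hnoR i) hiZ, hnS _ hc hi⟩))
          · exact hZ2b (by
              by_contra hb
              exact hc (mem_core.2 ⟨hiD, hb⟩))
        · exact hg.1.off _ hiD
  have s3 : avg (Zs D 0 Z2) (clm p) ≤ avg (Om D) (clm p) := by
    have hE2 : Dec (fun g : V → ℤ => ∀ v ∈ Z2, g v = 0) := by
      refine ⟨fun g => ?_, fun g g' h0 hle h v hv => ?_⟩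
      · refine forall₂_congr fun v _ => ?_
        show |g v| = 0 ↔ g v = 0
        exact abs_eq_zero
      · have h3 := h v hv
        have h4 := hle v
        have h5 := h0 v
        omega
    refine avg_filter_dec (fam_Zs (Finset.Subset.refl (bdry D))) (lat_Tb _ _ _ _) hE2
      (fun g => ?_) hneZ (clm_incF p)
    rw [mem_Zs hZ2b, mem_Zs (Finset.Subset.refl _)]
    constructor
    · rintro ⟨h3, h4⟩
      exact ⟨⟨h3, fun v hv => h4 v (hZ2b hv)⟩, h4⟩
    · rintro ⟨⟨h3, -⟩, h4⟩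
      exact ⟨h3, h4⟩
  have hcard : (0 : ℝ) < F'.card := by exact_mod_cast hne'.card_pos
  have s4 : ∑ g ∈ F', clm p g = avg F' (clm p) * F'.card := by
    unfold avg
    rw [div_mul_cancel₀ _ hcard.ne']
  rw [s4]
  exact mul_le_mul_of_nonneg_right (s1.trans (s2.le.trans s3)) hcard.le

/-- the sum of the cluster weights over the images under the change of the sign -/
lemma sum_clm_neg {n : ℕ} (p : Fin n → V) (A : Finset (V → ℤ)) :
    ∑ g ∈ A.map ⟨fun g : V → ℤ => -g, neg_injective⟩, clm p g = ∑ g ∈ A, clm p g := by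
  rw [Finset.sum_map]
  refine Finset.sum_congr rfl fun g _ => ?_
  have h1 := clm_abs p g
  have h2 := clm_abs p (-g)
  simp only [Pi.neg_apply, abs_neg] at h2
  show clm p (-g) = clm p g
  rw [← h1, ← h2]

lemma mem_map_neg {A : Finset (V → ℤ)} {g : V → ℤ} :
    g ∈ A.map ⟨fun g : V → ℤ => -g, neg_injective⟩ ↔ -g ∈ A := by
  rw [Finset.mem_map]
  constructor
  · rintro ⟨h, hh, rfl⟩
    simpa using hh
  · intro h
    exact ⟨-g, h, by simp⟩

lemma conn_neg {g : V → ℤ} {x y : V} (h : Conn (-g) x y) : Conn g x y := by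
  refine ⟨by simpa using h.1, ?_⟩
  refine Relation.ReflTransGen.mono (fun a b hab => ⟨hab.1, ?_⟩) _ _ h.2
  simpa using hab.2

/-
First `0 ≤ b` (symmetry `g ↦ -g`).  Outer part: `Out g = clus (nz g) {v | v ∉ core D}`, `o g = inn (Out g) g` (so `nz (o g) = Out g`).  Split `A'` into the fibres
`{g ∈ A : |o g| = ξ}`; with `R = nz ξ` a nonempty fibre is `Fam D' 0 (bdry D') (Tb Z ξ)`, `Z = R ∪ {v | v ∉ core D} ∪ {v | v has a neighbour in R}`.
If some `p i ∈ R` then `E` fails on the whole fibre (`hblk`).  Otherwise: `avg_filter_dec` (`E` is decreasing, `clm p` is increasing), then `markov_clm` with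
`S = core D \ (R ∪ neighbours of R)` to `Zs D 0 (bdry D ∪ {v ∈ D even, v ∈ R or v has a neighbour in R})`, then `gfkg` (more zeros) to `Om D`.
-/
theorem up_clm {n : ℕ} {p : Fin n → V} {D D' : Finset V} (hD : BdryPar D 0) (hDD' : D ⊆ D')
    {b : ℤ} {A : Finset (V → ℤ)} (hA : ∀ g, g ∈ A ↔ IsHom D' 0 g ∧ ∀ v ∈ bdry D', g v = b)
    {E : (V → ℤ) → Prop} (hE : Dec E)
    (hblk : ∀ g ∈ A, E g → ∀ i, ∀ v ∉ core D, ¬ Conn g (p i) v)
    {A' : Finset (V → ℤ)} (hA' : ∀ g, g ∈ A' ↔ g ∈ A ∧ E g) :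
    ∑ g ∈ A', clm p g ≤ avg (Om D) (clm p) * A'.card := by
  classical
  have hEneg : ∀ g, E (-g) ↔ E g := by
    intro g
    rw [← hE.abs (-g), ← hE.abs g]
    have h1 : absf (-g) = absf g := by
      funext v
      exact abs_neg (g v)
    rw [h1]
  rcases le_total 0 b with hb | hb
  · exact up_nn hD hDD' hb hA hE hblk hA'
  · have h1 := up_nn (p := p) hD hDD' (b := -b) (by omega)
      (A := A.map ⟨fun g : V → ℤ => -g, neg_injective⟩) (fun g => ?_) hE (fun g hg hEg i v hv hc => ?_)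
      (A' := A'.map ⟨fun g : V → ℤ => -g, neg_injective⟩) (fun g => ?_)
    · rwa [sum_clm_neg, Finset.card_map] at h1
    · rw [mem_map_neg, hA]
      constructor
      · rintro ⟨h3, h4⟩
        have h5 := h3.neg
        rw [neg_neg] at h5
        refine ⟨h5, fun v hv => ?_⟩
        have h6 := h4 v hv
        rw [Pi.neg_apply] at h6
        omega
      · rintro ⟨h3, h4⟩
        refine ⟨h3.neg, fun v hv => ?_⟩
        rw [Pi.neg_apply, h4 v hv]
        omega
    · rw [mem_map_neg] at hg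
      refine hblk (-g) hg ((hEneg g).2 hEg) i v hv (conn_neg (g := -g) ?_)
      rwa [neg_neg]
    · rw [mem_map_neg, mem_map_neg, hA', hEneg]

/-
`up_clm`, `sum_prod_filter`, `prod_clm` (for `Om D`).
-/
theorem up_fin {n : ℕ} {p : Fin n → V} {D D' : Finset V} (hD : BdryPar D 0) (hDD' : D ⊆ D')
    {b : ℤ} {A : Finset (V → ℤ)} (hA : ∀ g, g ∈ A ↔ IsHom D' 0 g ∧ ∀ v ∈ bdry D', g v = b)
    {E : (V → ℤ) → Prop} (hE : Dec E)
    (hblk : ∀ g ∈ A, E g → ∀ i, ∀ v ∉ core D, ¬ Conn g (p i) v)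
    {A' : Finset (V → ℤ)} (hA' : ∀ g, g ∈ A' ↔ g ∈ A ∧ E g) :
    ∑ g ∈ A', ∏ i, (g (p i) : ℝ) ≤ avg (Om D) (fun h => ∏ i, (h (p i) : ℝ)) * A'.card := by
  have h1 : avg (Om D) (fun h => ∏ i, (h (p i) : ℝ)) = avg (Om D) (clm p) := by
    unfold avg
    exact congrArg (· / _) (prod_clm D 0 (bdry D) (Finset.Subset.refl _) p)
  rw [h1, sum_prod_filter hA hE.abs (fun g hg hEg i v hv => hblk g hg hEg i v
    fun h => core_not_bdry hDD' h hv) hA']
  exact up_clm hD hDD' hA hE hblk hA'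

end SW
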